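import Pool.Agent.Lib.MP_688fd0_co.NC.Iface
import Pool.Agent.Lib.MP_688fd0_co.SQ3.H43.Factor2

/-!
PATH (helper78): the listing sequence from a rooted tree of the quotient.
-/

set_option autoImplicit false

namespace Pool.Agent.Lib.MP_688fd0_co.NC

open Pool.Agent.Lib.MP_688fd0_co.OSF

universe u

namespace PathP

variable {G : Type u} [Group G] {A : Set G}

/-- A path from `x` to `y` through exactly the elements of `S`. -/
def PL (A : Set G) (S : Set G) (x y : G) : Prop :=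
  ∃ l : List G, l.head? = some x ∧ l.getLast? = some y ∧ l.IsChain (fun a b => a⁻¹ * b ∈ A) ∧ l.Nodup ∧
    ∀ g, g ∈ l ↔ g ∈ S

theorem PL.rev {S : Set G} {x y : G} (hA : ∀ x ∈ A, x⁻¹ ∈ A) (h : PL A S x y) : PL A S y x := by
  obtain ⟨l, h1, h2, h3, h4, h5⟩ := h
  refine ⟨l.reverse, by rw [List.head?_reverse, h2], by rw [List.getLast?_reverse, h1], ?_,
    List.nodup_reverse.2 h4, fun g => by rw [List.mem_reverse, h5]⟩
  rw [List.isChain_reverse]
  refine h3.imp fun a b hab => ?_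
  have := hA _ hab
  rwa [mul_inv_rev, inv_inv] at this

theorem PL.app {S T : Set G} {x y z w : G} (h : PL A S x y) (h' : PL A T z w) (hd : ∀ g, g ∈ S → g ∉ T)
    (hyz : y⁻¹ * z ∈ A) : PL A (S ∪ T) x w := by
  obtain ⟨l, h1, h2, h3, h4, h5⟩ := h
  obtain ⟨l', h1', h2', h3', h4', h5'⟩ := h'
  refine ⟨l ++ l', ?_, ?_, ?_, ?_, fun g => by rw [List.mem_append, h5, h5']; rfl⟩
  · rw [List.head?_append, h1]
    rfl
  · rw [List.getLast?_append, h2']
    rfl
  · rw [List.isChain_append]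
    refine ⟨h3, h3', fun a ha b hb => ?_⟩
    rw [h2] at ha
    rw [h1'] at hb
    obtain rfl := Option.some.inj ha
    obtain rfl := Option.some.inj hb
    exact hyz
  · rw [List.nodup_append]
    refine ⟨h4, h4', fun a ha b hb hab => ?_⟩
    exact hd a ((h5 a).1 ha) ((h5' a).1 (by rw [hab]; exact hb))

theorem PL.congr {S T : Set G} {x y : G} (h : PL A S x y) (hST : ∀ g, g ∈ S ↔ g ∈ T) : PL A T x y := by
  obtain ⟨l, h1, h2, h3, h4, h5⟩ := h
  exact ⟨l, h1, h2, h3, h4, fun g => (h5 g).trans (hST g)⟩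

/-- A part of a fibre. -/
def Fb (r x : G) (a b : ℕ) : Set G := {g | ∃ i, a ≤ i ∧ i < b ∧ g = x * r ^ i}

theorem pl_run {r : G} (hr : r ∈ A) (x : G) (a k : ℕ) (hk : a + (k + 1) ≤ orderOf r) :
    PL A (Fb r x a (a + (k + 1))) (x * r ^ a) (x * r ^ (a + k)) := by
  induction k with
  | zero =>
    refine ⟨[x * r ^ a], rfl, rfl, List.isChain_singleton _, List.nodup_singleton _, fun g => ?_⟩
    constructor
    · intro h
      rw [List.mem_singleton] at h
      exact ⟨a, le_rfl, by omega, h⟩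
    · rintro ⟨i, h1, h2, rfl⟩
      obtain rfl : i = a := by omega
      exact List.mem_singleton_self _
  | succ k ih =>
    have h1 := ih (by omega)
    have h2 : PL A {x * r ^ (a + (k + 1))} (x * r ^ (a + (k + 1))) (x * r ^ (a + (k + 1))) :=
      ⟨[x * r ^ (a + (k + 1))], rfl, rfl, List.isChain_singleton _, List.nodup_singleton _, fun g => by
        rw [List.mem_singleton]; rfl⟩
    refine (h1.app h2 ?_ ?_).congr fun g => ?_
    · rintro g ⟨i, hi1, hi2, rfl⟩ hg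
      have h3 : x * r ^ i = x * r ^ (a + (k + 1)) := hg
      have h4 := pow_injOn_Iio_orderOf (x := r) (Set.mem_Iio.2 (by omega))
        (Set.mem_Iio.2 (by omega)) (mul_left_cancel h3)
      omega
    · rw [show a + (k + 1) = (a + k) + 1 by omega, pow_succ, mul_inv_rev]
      have : (r ^ (a + k))⁻¹ * x⁻¹ * (x * (r ^ (a + k) * r)) = r := by group
      rw [this]
      exact hr
    · constructor
      · rintro (⟨i, hi1, hi2, rfl⟩ | hg)
        · exact ⟨i, hi1, by omega, rfl⟩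
        · exact ⟨a + (k + 1), by omega, by omega, hg⟩
      · rintro ⟨i, hi1, hi2, rfl⟩
        by_cases hi : i < a + (k + 1)
        · exact Or.inl ⟨i, hi1, hi, rfl⟩
        · have : i = a + (k + 1) := by omega
          subst this
          exact Or.inr rfl

/-- The same with the ends as in the proof. -/
theorem pl_asc {r : G} (hr : r ∈ A) (x : G) {a b : ℕ} (hab : a < b) (hb : b ≤ orderOf r) :
    PL A (Fb r x a b) (x * r ^ a) (x * r ^ (b - 1)) := by
  have h := pl_run hr x a (b - 1 - a) (by omega)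
  rw [show a + (b - 1 - a + 1) = b by omega, show a + (b - 1 - a) = b - 1 by omega] at h
  exact h

theorem pl_desc {r : G} (hr : r ∈ A) (hA : ∀ x ∈ A, x⁻¹ ∈ A) (x : G) {a b : ℕ} (hab : a < b)
    (hb : b ≤ orderOf r) : PL A (Fb r x a b) (x * r ^ (b - 1)) (x * r ^ a) := (pl_asc hr x hab hb).rev hA

/-- A path through everything is a listing sequence. -/
theorem lst_of_PL {r : G} (hr : r ∈ A) {x y : G} (h : PL A Set.univ x y) : Lst A := by
  obtain ⟨l, h1, h2, h3, h4, h5⟩ := h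
  refine SQ3.H43.lst_of_walk A l.length
    (fun k => if k = 0 then x * r⁻¹ else l.getD (k - 1) 1) ?_ ?_ ?_
  · intro k hk
    rcases Nat.eq_zero_or_pos k with rfl | hk0
    · have e1 : l.getD (0 + 1 - 1) 1 = x := by
        cases l with
        | nil => simp at h1
        | cons a l => simpa using h1
      simp only [if_true]
      rw [if_neg (by omega), e1]
      have : (x * r⁻¹)⁻¹ * x = r := by group
      rw [this]
      exact hr
    · rw [if_neg (by omega), if_neg (by omega)]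
      have h6 := List.isChain_iff_getElem.1 h3 (k - 1) (by omega)
      rw [List.getD_eq_getElem _ _ (by omega), List.getD_eq_getElem _ _ (by omega)]
      have e1 : k - 1 + 1 = k + 1 - 1 := by omega
      simp only [e1] at h6
      exact h6
  · intro i hi j hj hij
    rw [if_neg (by omega), if_neg (by omega), Nat.add_sub_cancel, Nat.add_sub_cancel,
      List.getD_eq_getElem _ _ hi, List.getD_eq_getElem _ _ hj] at hij
    exact (List.Nodup.getElem_inj_iff h4).1 hij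
  · intro g
    obtain ⟨k, hk, hg⟩ := List.getElem_of_mem ((h5 g).2 trivial)
    refine ⟨k, hk, ?_⟩
    rw [if_neg (by omega), Nat.add_sub_cancel, List.getD_eq_getElem _ _ hk]
    exact hg

section tree

variable {r : G}

/-- The elements over the set `U`. -/
def Ov (r : G) (U : Finset (G ⧸ Subgroup.zpowers r)) : Set G :=
  {g | (g : G ⧸ Subgroup.zpowers r) ∈ U}

/-- The exchange displacement: excursions by the edge `s` into the set over `U`. -/
def Ex (A : Set G) (r s : G) (v : G ⧸ Subgroup.zpowers r) (U : Finset (G ⧸ Subgroup.zpowers r)) (d : ℕ) : Prop :=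
  ∀ x : G, (x : G ⧸ Subgroup.zpowers r) = v → PL A (Ov r U) (x * s) (x * r ^ d * s)

theorem mk_pow (x : G) (k : ℕ) : ((x * r ^ k : G) : G ⧸ Subgroup.zpowers r) = (x : G ⧸ Subgroup.zpowers r) := by
  rw [QuotientGroup.eq]
  rw [mul_inv_rev, inv_mul_cancel_right]
  exact Subgroup.inv_mem _ (Subgroup.pow_mem _ (Subgroup.mem_zpowers r) k)

/-- The elements of a fibre. -/
theorem over_iff [Finite G] {x g : G} : (g : G ⧸ Subgroup.zpowers r) = (x : G ⧸ Subgroup.zpowers r) ↔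
    ∃ i < orderOf r, g = x * r ^ i := by
  constructor
  · intro h
    rw [eq_comm, QuotientGroup.eq] at h
    classical
    have h1 := mem_zpowers_iff_mem_range_orderOf.1 h
    rw [Finset.mem_image] at h1
    obtain ⟨i, hi, hg⟩ := h1
    exact ⟨i, Finset.mem_range.1 hi, by rw [hg, mul_inv_cancel_left]⟩
  · rintro ⟨i, -, rfl⟩
    exact mk_pow x i

theorem Ex.inv [Finite G] (hA : ∀ x ∈ A, x⁻¹ ∈ A) {s : G} {v : G ⧸ Subgroup.zpowers r}
    {U : Finset (G ⧸ Subgroup.zpowers r)} {d : ℕ} (hd : d ≤ orderOf r) (h : Ex A r s v U d) :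
    Ex A r s v U (orderOf r - d) := by
  intro x hx
  have h1 := h (x * r ^ (orderOf r - d)) (by rw [mk_pow, hx])
  have e1 : x * r ^ (orderOf r - d) * r ^ d = x := by
    rw [mul_assoc, ← pow_add, Nat.sub_add_cancel hd, pow_orderOf_eq_one, mul_one]
  rw [e1] at h1
  exact h1.rev hA

/-- The claim of the induction. -/
def Clm (A : Set G) (r : G) (U : Finset (G ⧸ Subgroup.zpowers r)) (v : G ⧸ Subgroup.zpowers r) : Prop :=
  ∃ ρ ∈ Subgroup.zpowers r, ρ ≠ 1 ∧ ∀ x : G, (x : G ⧸ Subgroup.zpowers r) = v → PL A (Ov r U) x (ρ * x)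

theorem Clm.of [Finite G] (hN : (Subgroup.zpowers r).Normal) {U : Finset (G ⧸ Subgroup.zpowers r)}
    {v : G ⧸ Subgroup.zpowers r} {e : ℕ} (h1 : 1 ≤ e) (h2 : e < orderOf r)
    (h : ∀ x : G, (x : G ⧸ Subgroup.zpowers r) = v → PL A (Ov r U) x (x * r ^ e)) : Clm A r U v := by
  obtain ⟨x₀, hx₀⟩ := QuotientGroup.mk_surjective v
  refine ⟨x₀ * r ^ e * x₀⁻¹, hN.conj_mem _ (Subgroup.pow_mem _ (Subgroup.mem_zpowers r) e) x₀, ?_, ?_⟩
  · intro h3
    have h4 : r ^ e = 1 := by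
      have h5 := congrArg (fun g => x₀⁻¹ * g * x₀) h3
      simpa [mul_assoc] using h5
    exact (pow_ne_one_of_lt_orderOf (by omega) h2) h4
  · intro x hx
    obtain ⟨i, -, rfl⟩ := over_iff.1 (hx.trans hx₀.symm)
    have e1 : x₀ * r ^ e * x₀⁻¹ * (x₀ * r ^ i) = x₀ * r ^ i * r ^ e := by
      rw [← mul_assoc, inv_mul_cancel_right, mul_assoc, mul_assoc, ← pow_add, ← pow_add, add_comm]
    rw [e1]
    exact h _ hx

theorem Clm.ex [Finite G] (hN : (Subgroup.zpowers r).Normal) {U : Finset (G ⧸ Subgroup.zpowers r)}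
    {v : G ⧸ Subgroup.zpowers r} {s : G} (h : Clm A r U (v * (s : G ⧸ Subgroup.zpowers r))) :
    ∃ d, 1 ≤ d ∧ d < orderOf r ∧ Ex A r s v U d := by
  obtain ⟨ρ, h1, h2, h3⟩ := h
  obtain ⟨x₀, hx₀⟩ := QuotientGroup.mk_surjective v
  have h4 : x₀⁻¹ * ρ * x₀ ∈ Subgroup.zpowers r := by
    have := hN.conj_mem _ h1 x₀⁻¹
    rwa [inv_inv] at this
  have h5 : ((x₀⁻¹ * ρ * x₀ : G) : G ⧸ Subgroup.zpowers r) = ((1 : G) : G ⧸ Subgroup.zpowers r) := by
    rw [eq_comm, QuotientGroup.eq, inv_one, one_mul]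
    exact h4
  obtain ⟨d, hd, hd'⟩ := over_iff.1 h5
  rw [one_mul] at hd'
  refine ⟨d, ?_, hd, ?_⟩
  · rcases Nat.eq_zero_or_pos d with rfl | hd0
    · exfalso
      rw [pow_zero] at hd'
      apply h2
      have h6 := congrArg (fun g => x₀ * g * x₀⁻¹) hd'
      simpa [mul_assoc] using h6
    · exact hd0
  · intro x hx
    have h6 := h3 (x * s) (by
      rw [QuotientGroup.mk_mul, hx])
    obtain ⟨i, -, rfl⟩ := over_iff.1 (hx.trans hx₀.symm)
    have e1 : ρ * (x₀ * r ^ i * s) = x₀ * r ^ i * r ^ d * s := by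
      have e2 : ρ = x₀ * r ^ d * x₀⁻¹ := by
        rw [← hd']
        group
      rw [e2, mul_assoc x₀ (r ^ i) (r ^ d), ← pow_add, add_comm i d, pow_add]
      group
    rw [e1] at h6
    exact h6

section cases

variable [Finite G] [DecidableEq (G ⧸ Subgroup.zpowers r)]

theorem clm_leaf (hr : r ∈ A) (h2 : 2 ≤ orderOf r) (hN : (Subgroup.zpowers r).Normal)
    (v : G ⧸ Subgroup.zpowers r) : Clm A r {v} v := by
  refine Clm.of hN (e := orderOf r - 1) (by omega) (by omega) fun x hx => ?_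
  have h := pl_asc hr x (a := 0) (b := orderOf r) (by omega) le_rfl
  rw [pow_zero, mul_one] at h
  refine h.congr fun g => ?_
  constructor
  · rintro ⟨i, -, hi, rfl⟩
    show ((x * r ^ i : G) : G ⧸ Subgroup.zpowers r) ∈ ({v} : Finset _)
    rw [mk_pow, hx]
    exact Finset.mem_singleton_self _
  · intro hg
    have hg' : (g : G ⧸ Subgroup.zpowers r) = v := Finset.mem_singleton.1 hg
    obtain ⟨i, hi, rfl⟩ := over_iff.1 (hg'.trans hx.symm)
    exact ⟨i, Nat.zero_le _, hi, rfl⟩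

theorem fb_over {x : G} {a b : ℕ} {g : G} (hg : g ∈ Fb r x a b) :
    (g : G ⧸ Subgroup.zpowers r) = (x : G ⧸ Subgroup.zpowers r) := by
  obtain ⟨i, -, -, rfl⟩ := hg
  exact mk_pow x i

theorem fb_disj {x : G} {a b c d : ℕ} (hb : b ≤ orderOf r) (hd : d ≤ orderOf r) (hbc : b ≤ c) {g : G}
    (hg : g ∈ Fb r x a b) (hg' : g ∈ Fb r x c d) : False := by
  obtain ⟨i, h1, h2, rfl⟩ := hg
  obtain ⟨j, h3, h4, h5⟩ := hg'
  have h6 := pow_injOn_Iio_orderOf (x := r) (Set.mem_Iio.2 (by omega))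
    (Set.mem_Iio.2 (by omega)) (mul_left_cancel h5)
  omega

/-- One step down: `(x * r ^ d * s)⁻¹ * (x * r ^ d) = s⁻¹`. -/
theorem back (x s : G) (d : ℕ) (y : G) (hy : y = x * r ^ d) : (x * r ^ d * s)⁻¹ * y = s⁻¹ := by
  rw [hy]
  group

theorem clm_one (hA : ∀ x ∈ A, x⁻¹ ∈ A) (hr : r ∈ A) (hN : (Subgroup.zpowers r).Normal)
    {v : G ⧸ Subgroup.zpowers r} {U : Finset (G ⧸ Subgroup.zpowers r)} {s : G} (hs : s ∈ A)
    (hv : v ∉ U) (h : Clm A r U (v * (s : G ⧸ Subgroup.zpowers r))) : Clm A r (insert v U) v := by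
  obtain ⟨j, hj1, hj2, hj⟩ := Clm.ex hN h
  refine Clm.of hN (e := orderOf r - j) (by omega) (by omega) fun x hx => ?_
  have p1 := pl_asc hr x (a := 0) (b := orderOf r - j) (by omega) (by omega)
  rw [pow_zero, mul_one] at p1
  have p2 := hj (x * r ^ (orderOf r - j - 1)) (by rw [mk_pow, hx])
  have p3 := pl_desc hr hA x (a := orderOf r - j) (b := orderOf r) (by omega) le_rfl
  have e1 : x * r ^ (orderOf r - 1) = x * r ^ (orderOf r - j - 1) * r ^ j := by
    rw [mul_assoc, ← pow_add]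
    congr 2
    omega
  refine ((p1.app p2 ?_ ?_).app p3 ?_ ?_).congr fun g => ?_
  · intro g hg hg'
    have h1 := fb_over hg
    rw [hx] at h1
    have h2 : (g : G ⧸ Subgroup.zpowers r) ∈ U := hg'
    rw [h1] at h2
    exact hv h2
  · rw [inv_mul_cancel_left]
    exact hs
  · rintro g (hg | hg) hg'
    · exact fb_disj (by omega) le_rfl le_rfl hg hg'
    · have h1 := fb_over hg'
      rw [hx] at h1
      have h2 : (g : G ⧸ Subgroup.zpowers r) ∈ U := hg
      rw [h1] at h2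
      exact hv h2
  · rw [back _ _ _ _ e1]
    exact hA s hs
  · constructor
    · rintro ((hg | hg) | hg)
      · exact Finset.mem_insert.2 (Or.inl ((fb_over hg).trans hx))
      · exact Finset.mem_insert.2 (Or.inr hg)
      · exact Finset.mem_insert.2 (Or.inl ((fb_over hg).trans hx))
    · intro hg
      rcases Finset.mem_insert.1 hg with hg | hg
      · obtain ⟨i, hi, rfl⟩ := over_iff.1 (hg.trans hx.symm)
        by_cases hij : i < orderOf r - j
        · exact Or.inl (Or.inl ⟨i, Nat.zero_le _, hij, rfl⟩)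
        · exact Or.inr ⟨i, by omega, hi, rfl⟩
      · exact Or.inl (Or.inr hg)

theorem clm_two' (hA : ∀ x ∈ A, x⁻¹ ∈ A) (hr : r ∈ A) (hN : (Subgroup.zpowers r).Normal)
    {v : G ⧸ Subgroup.zpowers r} {U₁ U₂ : Finset (G ⧸ Subgroup.zpowers r)} {s₁ s₂ : G} (hs₁ : s₁ ∈ A)
    (hs₂ : s₂ ∈ A) (hv₁ : v ∉ U₁) (hv₂ : v ∉ U₂) (hU : Disjoint U₁ U₂) {d₁ d₂ : ℕ} (h1 : 1 ≤ d₁)
    (h12 : d₁ ≤ d₂) (h2 : d₂ + 2 ≤ orderOf r) (hx₁ : Ex A r s₁ v U₁ d₁) (hx₂ : Ex A r s₂ v U₂ d₂) :
    Clm A r (insert v (U₁ ∪ U₂)) v := by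
  obtain ⟨m, hm⟩ : ∃ m, m + d₂ + 2 = orderOf r := ⟨orderOf r - d₂ - 2, by omega⟩
  refine Clm.of hN (e := m + 1 + d₁) (by omega) (by omega) fun x hx => ?_
  have p1 := pl_asc hr x (a := 0) (b := m + 1) (by omega) (by omega)
  rw [pow_zero, mul_one, Nat.add_sub_cancel] at p1
  have p2 := hx₁ (x * r ^ m) (by rw [mk_pow, hx])
  have p3 := pl_desc hr hA x (a := m + 1) (b := m + 1 + d₁) (by omega) (by omega)
  have p4 := hx₂ (x * r ^ (m + 1)) (by rw [mk_pow, hx])
  have p5 := pl_desc hr hA x (a := m + 1 + d₁) (b := orderOf r) (by omega) le_rfl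
  have e1 : x * r ^ (m + 1 + d₁ - 1) = x * r ^ m * r ^ d₁ := by
    rw [mul_assoc, ← pow_add]
    congr 2
    omega
  have e2 : x * r ^ (orderOf r - 1) = x * r ^ (m + 1) * r ^ d₂ := by
    rw [mul_assoc, ← pow_add]
    congr 2
    omega
  have hn : ∀ {U : Finset (G ⧸ Subgroup.zpowers r)} {a b : ℕ} {g : G}, v ∉ U → g ∈ Fb r x a b →
      g ∈ Ov r U → False := by
    intro U a b g hv hg hg'
    have h1 := fb_over hg
    rw [hx] at h1
    have h2 : (g : G ⧸ Subgroup.zpowers r) ∈ U := hg'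
    rw [h1] at h2
    exact hv h2
  have hdd : ∀ {g : G}, g ∈ Ov r U₁ → g ∈ Ov r U₂ → False := fun {g} hg hg' =>
    Finset.disjoint_left.1 hU (show (g : G ⧸ Subgroup.zpowers r) ∈ U₁ from hg) hg'
  refine ((((p1.app p2 ?_ ?_).app p3 ?_ ?_).app p4 ?_ ?_).app p5 ?_ ?_).congr fun g => ?_
  · exact fun g hg hg' => hn hv₁ hg hg'
  · rw [inv_mul_cancel_left]
    exact hs₁
  · rintro g (hg | hg) hg'
    · exact fb_disj (by omega) (by omega) le_rfl hg hg'
    · exact hn hv₁ hg' hg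
  · rw [back _ _ _ _ e1]
    exact hA s₁ hs₁
  · rintro g ((hg | hg) | hg) hg'
    · exact hn hv₂ hg hg'
    · exact hdd hg hg'
    · exact hn hv₂ hg hg'
  · rw [inv_mul_cancel_left]
    exact hs₂
  · rintro g (((hg | hg) | hg) | hg) hg'
    · exact fb_disj (by omega) le_rfl (by omega) hg hg'
    · exact hn hv₁ hg' hg
    · exact fb_disj (by omega) le_rfl le_rfl hg hg'
    · exact hn hv₂ hg' hg
  · rw [back _ _ _ _ e2]
    exact hA s₂ hs₂
  · constructor
    · rintro ((((hg | hg) | hg) | hg) | hg)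
      · exact Finset.mem_insert.2 (Or.inl ((fb_over hg).trans hx))
      · exact Finset.mem_insert.2 (Or.inr (Finset.mem_union_left _ hg))
      · exact Finset.mem_insert.2 (Or.inl ((fb_over hg).trans hx))
      · exact Finset.mem_insert.2 (Or.inr (Finset.mem_union_right _ hg))
      · exact Finset.mem_insert.2 (Or.inl ((fb_over hg).trans hx))
    · intro hg
      rcases Finset.mem_insert.1 hg with hg | hg
      · obtain ⟨i, hi, rfl⟩ := over_iff.1 (hg.trans hx.symm)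
        by_cases hi1 : i < m + 1
        · exact Or.inl (Or.inl (Or.inl (Or.inl ⟨i, Nat.zero_le _, hi1, rfl⟩)))
        by_cases hi2 : i < m + 1 + d₁
        · exact Or.inl (Or.inl (Or.inr ⟨i, by omega, hi2, rfl⟩))
        · exact Or.inr ⟨i, by omega, hi, rfl⟩
      · rcases Finset.mem_union.1 hg with hg | hg
        · exact Or.inl (Or.inl (Or.inl (Or.inr hg)))
        · exact Or.inl (Or.inr hg)

theorem clm_two (hA : ∀ x ∈ A, x⁻¹ ∈ A) (hr : r ∈ A) (h3 : 3 ≤ orderOf r)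
    (hN : (Subgroup.zpowers r).Normal)
    {v : G ⧸ Subgroup.zpowers r} {U₁ U₂ : Finset (G ⧸ Subgroup.zpowers r)} {s₁ s₂ : G} (hs₁ : s₁ ∈ A)
    (hs₂ : s₂ ∈ A) (hv₁ : v ∉ U₁) (hv₂ : v ∉ U₂) (hU : Disjoint U₁ U₂)
    (hc₁ : Clm A r U₁ (v * (s₁ : G ⧸ Subgroup.zpowers r)))
    (hc₂ : Clm A r U₂ (v * (s₂ : G ⧸ Subgroup.zpowers r))) :
    Clm A r (insert v (U₁ ∪ U₂)) v := by
  obtain ⟨e₁, a1, a2, a3⟩ := Clm.ex hN hc₁
  obtain ⟨e₂, b1, b2, b3⟩ := Clm.ex hN hc₂
  -- both displacements may be replaced by `orderOf r - e`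
  obtain ⟨d₁, c1, c2, c3⟩ : ∃ d, 1 ≤ d ∧ 2 * d ≤ orderOf r ∧ Ex A r s₁ v U₁ d := by
    by_cases h : 2 * e₁ ≤ orderOf r
    · exact ⟨e₁, a1, h, a3⟩
    · exact ⟨orderOf r - e₁, by omega, by omega, a3.inv hA a2.le⟩
  obtain ⟨d₂, c4, c5, c6⟩ : ∃ d, d < orderOf r ∧ orderOf r ≤ 2 * d ∧ Ex A r s₂ v U₂ d := by
    by_cases h : orderOf r ≤ 2 * e₂
    · exact ⟨e₂, b2, h, b3⟩
    · exact ⟨orderOf r - e₂, by omega, by omega, b3.inv hA b2.le⟩
  by_cases h : d₂ + 2 ≤ orderOf r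
  · exact clm_two' hA hr hN hs₁ hs₂ hv₁ hv₂ hU c1 (by omega) h c3 c6
  · have h4 := c6.inv hA c4.le
    rw [show orderOf r - d₂ = 1 by omega] at h4
    rw [Finset.union_comm]
    exact clm_two' hA hr hN hs₂ hs₁ hv₂ hv₁ hU.symm le_rfl c1 (by omega) h4 c3

end cases

end tree

end PathP

open PathP

/-- PATH -/
theorem path : PathS.{u} := by
  intro G _ _ A hA r hr hrr hN _ Γ U v hΓ hU hRT
  have h3 : 3 ≤ orderOf r := by
    have h1 : 0 < orderOf r := orderOf_pos r
    have h2 : orderOf r ≠ 1 := by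
      intro h
      rw [orderOf_eq_one_iff] at h
      exact hrr (by rw [h, mul_one])
    have h4 : orderOf r ≠ 2 := by
      intro h
      apply hrr
      have := pow_orderOf_eq_one r
      rwa [h, pow_two] at this
    omega
  have key : ∀ (U : Finset (G ⧸ Subgroup.zpowers r)) (v : G ⧸ Subgroup.zpowers r), RT Γ U v →
      Clm A r U v := by
    intro U v h
    induction h with
    | leaf v => exact clm_leaf hr (by omega) hN v
    | one _ hv ha ih =>
      obtain ⟨s, hs, rfl⟩ := hΓ _ _ ha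
      exact clm_one hA hr hN hs hv ih
    | two _ _ hd hv₁ hv₂ ha₁ ha₂ ih₁ ih₂ =>
      obtain ⟨s₁, hs₁, rfl⟩ := hΓ _ _ ha₁
      obtain ⟨s₂, hs₂, rfl⟩ := hΓ _ _ ha₂
      exact clm_two hA hr h3 hN hs₁ hs₂ hv₁ hv₂ hd ih₁ ih₂
  obtain ⟨ρ, -, -, h⟩ := key U v hRT
  obtain ⟨x, hx⟩ := QuotientGroup.mk_surjective v
  exact lst_of_PL hr ((h x hx).congr fun g => ⟨fun _ => trivial, fun _ => hU _⟩)

end Pool.Agent.Lib.MP_688fd0_co.NC
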