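import Pool.Agent.Lib.MP_688fd0_co.NC.All
import Pool.Agent.Lib.MP_688fd0_co.NC.Path

/-!
Abelian groups, and Theorem N for a normal abelian subgroup (helper35).
-/

set_option autoImplicit false

namespace Pool.Agent.Lib.MP_688fd0_co.NC

open Pool.Agent.Lib.MP_688fd0_co.OSF

universe u

/-- The four elements `1, a, ab, b` of two commuting involutions. -/
def four {G : Type u} [CommGroup G] (a b : G) (ha : a * a = 1) (hb : b * b = 1) : Subgroup G where
  carrier := {g | g = 1 ∨ g = a ∨ g = a * b ∨ g = b}
  mul_mem' := by
    have e1 : a * b * a = b := by rw [mul_comm a b, mul_assoc, ha, mul_one]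
    have e2 : a * b * b = a := by rw [mul_assoc, hb, mul_one]
    have e3 : a * (a * b) = b := by rw [← mul_assoc, ha, one_mul]
    have e4 : b * (a * b) = a := by rw [mul_comm a b, ← mul_assoc, hb, one_mul]
    have e5 : a * b * (a * b) = 1 := by rw [mul_assoc, e4, ha]
    have e6 : b * a = a * b := mul_comm b a
    intro x y hx hy
    change x = 1 ∨ x = a ∨ x = a * b ∨ x = b at hx
    change y = 1 ∨ y = a ∨ y = a * b ∨ y = b at hy
    show x * y = 1 ∨ x * y = a ∨ x * y = a * b ∨ x * y = b
    rcases hx with hx | hx | hx | hx <;> rcases hy with hy | hy | hy | hy <;> rw [hx, hy]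
    · left; rw [mul_one]
    · right; left; rw [one_mul]
    · right; right; left; rw [one_mul]
    · right; right; right; rw [one_mul]
    · right; left; rw [mul_one]
    · left; exact ha
    · right; right; right; exact e3
    · right; right; left; rfl
    · right; right; left; rw [mul_one]
    · right; right; right; exact e1
    · left; exact e5
    · right; left; exact e2
    · right; right; right; rw [mul_one]
    · right; right; left; exact e6
    · right; left; exact e4
    · left; exact hb
  one_mem' := Or.inl rfl
  inv_mem' := by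
    have ia : a⁻¹ = a := inv_eq_of_mul_eq_one_left ha
    have ib : b⁻¹ = b := inv_eq_of_mul_eq_one_left hb
    rintro x (rfl | rfl | rfl | rfl)
    · exact Or.inl inv_one
    · exact Or.inr (Or.inl ia)
    · refine Or.inr (Or.inr (Or.inl ?_))
      rw [mul_inv, ia, ib]
    · exact Or.inr (Or.inr (Or.inr ib))

/-- Every nonempty symmetric generating set of a finite abelian group has a listing sequence. -/
theorem lst_abelian {G : Type u} [CommGroup G] [Finite G] (A : Set G) (hne : A.Nonempty)
    (hsym : ∀ x ∈ A, x⁻¹ ∈ A) (hgen : Subgroup.closure A = ⊤) : Lst A := by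
  by_cases h1 : ∃ a ∈ A, a * a ≠ 1
  · obtain ⟨a, ha, haa⟩ := h1
    exact nc G A hsym hgen a ha haa inferInstance
  push Not at h1
  by_cases h2 : ∃ a ∈ A, ∃ b ∈ A, a ≠ 1 ∧ b ≠ 1 ∧ a ≠ b
  · obtain ⟨a, ha, b, hb, ha1, hb1, hab⟩ := h2
    have haa := h1 a ha
    have hbb := h1 b hb
    have e1 : a * b ≠ 1 := fun h => hab (mul_left_cancel (h.trans haa.symm)).symm
    exact lst_of_seq A hsym hgen (four a b haa hbb) (E := 3)
      (v := fun i => if i = 0 then 1 else if i = 1 then a else if i = 2 then a * b else b)
      { mem := by
          intro i hi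
          show _ ∨ _ ∨ _ ∨ _
          by_cases h0 : i = 0
          · simp [h0]
          by_cases h3 : i = 1
          · simp [h3]
          by_cases h4 : i = 2
          · simp [h4]
          · simp [h0, h3, h4]
        inj := by
          intro i hi j hj hij
          have f1 : (1 : G) ≠ a := fun h => ha1 h.symm
          have f2 : (1 : G) ≠ b := fun h => hb1 h.symm
          have f3 : (1 : G) ≠ a * b := fun h => e1 h.symm
          have f4 : a ≠ a * b := fun h => hb1 (by simpa using h.symm)
          have f5 : b ≠ a * b := fun h => ha1 (by simpa using h.symm)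
          interval_cases i <;> interval_cases j <;> simp_all
        sur := by
          rintro g (rfl | rfl | rfl | rfl)
          · exact ⟨0, by omega, by simp⟩
          · exact ⟨1, by omega, by simp⟩
          · exact ⟨2, by omega, by simp⟩
          · exact ⟨3, by omega, by simp⟩
        edge := by
          intro i hi
          interval_cases i
          · simpa using ha
          · simpa using hb
          · have : (a * b)⁻¹ * b = a⁻¹ := by
              rw [mul_inv, mul_assoc, inv_mul_cancel, mul_one]
            show (a * b)⁻¹ * b ∈ A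
            rw [this]
            exact hsym a ha
        zero := by simp } (by omega)
  push Not at h2
  by_cases h3 : ∃ a ∈ A, a ≠ 1
  · obtain ⟨a, ha, ha1⟩ := h3
    have haa := h1 a ha
    have hall : ∀ g : G, g = 1 ∨ g = a := by
      intro g
      have hg : g ∈ Subgroup.closure A := by rw [hgen]; trivial
      have hle : Subgroup.closure A ≤ Subgroup.zpowers a := by
        rw [Subgroup.closure_le]
        intro x hx
        by_cases hx1 : x = 1
        · rw [hx1]; exact Subgroup.one_mem _
        · rw [h2 x hx a ha hx1 ha1]
          exact Subgroup.mem_zpowers a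
      obtain ⟨k, hk⟩ := Subgroup.mem_zpowers_iff.1 (hle hg)
      rcases Int.even_or_odd' k with ⟨m, rfl | rfl⟩
      · left
        rw [← hk, zpow_mul, zpow_two, haa, one_zpow]
      · right
        rw [← hk, zpow_add_one, zpow_mul, zpow_two, haa, one_zpow, one_mul]
    refine PathP.lst_of_PL ha (x := 1) (y := a) ⟨[1, a], rfl, rfl, ?_, ?_, fun g => ?_⟩
    · simpa using ha
    · simpa using fun h : (1 : G) = a => ha1 h.symm
    · have := hall g
      simpa using this
  · push Not at h3
    obtain ⟨a, ha⟩ := hne
    have ha1 := h3 a ha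
    have hall : ∀ g : G, g = 1 := by
      intro g
      have hg : g ∈ Subgroup.closure A := by rw [hgen]; trivial
      have hle : Subgroup.closure A ≤ ⊥ := by
        rw [Subgroup.closure_le]
        intro x hx
        rw [h3 x hx]
        exact Subgroup.one_mem _
      exact Subgroup.mem_bot.1 (hle hg)
    refine PathP.lst_of_PL ha (x := 1) (y := 1) ⟨[1], rfl, rfl, List.isChain_singleton _,
      List.nodup_singleton _, fun g => ?_⟩
    simp [hall g]

/-- Theorem N for an abelian normal subgroup. -/
theorem lst_of_abelian_normal {G : Type u} [Group G] [Finite G] (A : Set G)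
    (hsym : ∀ x ∈ A, x⁻¹ ∈ A) (hgen : Subgroup.closure A = ⊤) (N : Subgroup G) [N.Normal]
    (hab : ∀ x ∈ N, ∀ y ∈ N, x * y = y * x) (hN : 3 ≤ Nat.card N)
    (hcl : Subgroup.closure (A ∩ N) = N) : Lst A := by
  refine theoremN A hsym hgen N hN ?_
  let _ : CommGroup N :=
    { (inferInstance : Group N) with
      mul_comm := fun x y => Subtype.ext (hab x x.2 y y.2) }
  have hgen' : Subgroup.closure {x : N | (x : G) ∈ A} = ⊤ := by
    apply Subgroup.map_injective N.subtype_injective
    rw [MonoidHom.map_closure, ← MonoidHom.range_eq_map, Subgroup.range_subtype]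
    have h1 : N.subtype '' {x : N | (x : G) ∈ A} = A ∩ N := by
      ext g
      constructor
      · rintro ⟨x, hx, rfl⟩; exact ⟨hx, x.2⟩
      · rintro ⟨h1, h2⟩; exact ⟨⟨g, h2⟩, h1, rfl⟩
    rw [h1, hcl]
  have hne : ({x : N | (x : G) ∈ A}).Nonempty := by
    by_contra h
    rw [Set.not_nonempty_iff_eq_empty] at h
    rw [h, Subgroup.closure_empty] at hgen'
    have h2 : Nat.card N = 1 := by
      rw [← Subgroup.card_top, ← hgen', Subgroup.card_bot]
    omega
  exact lst_abelian {x : N | (x : G) ∈ A} hne (fun x hx => hsym _ hx) hgen'

end Pool.Agent.Lib.MP_688fd0_co.NC
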