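import Pool.Agent.Lib.MP_688fd0_co.NC.Iface

/-!
COUNT: removing vertices of degree three from a disconnected forest (helper96).
-/

set_option autoImplicit false

namespace Pool.Agent.Lib.MP_688fd0_co.NC.Count

open SimpleGraph Pool.Agent.Lib.MP_688fd0_co.NC

universe u

variable {V : Type u}

theorem del_anti {F : SimpleGraph V} {S T : Finset V} (h : S ⊆ T) : del F T ≤ del F S :=
  fun _ _ hab => ⟨hab.1, fun h1 => hab.2.1 (h h1), fun h1 => hab.2.2 (h h1)⟩

theorem del_le (F : SimpleGraph V) (S : Finset V) : del F S ≤ F := fun _ _ hab => hab.1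

/-- A vertex of the deleted set is isolated. -/
theorem not_mem_support {F : SimpleGraph V} {S : Finset V} {s : V} (hs : s ∈ S) {a b : V}
    (p : (del F S).Walk a b) (ha : a ≠ s) : s ∉ p.support := by
  induction p with
  | nil => simpa using Ne.symm ha
  | cons h q ih =>
    rw [Walk.support_cons, List.mem_cons, not_or]
    exact ⟨Ne.symm ha, ih fun e => h.2.2 (e ▸ hs)⟩

/-- Two neighbours of `s` are in different components after the deletion of `s`. -/
theorem not_reach {F : SimpleGraph V} (hF : F.IsAcyclic) {S : Finset V} {s : V} (hs : s ∈ S) {a b : V}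
    (ha : F.Adj s a) (hb : F.Adj s b) (hr : (del F S).Reachable a b) : a = b := by
  classical
  obtain ⟨p, hp⟩ := hr.exists_isPath
  have h1 : s ∉ p.support := not_mem_support hs p ha.ne'
  let q : F.Walk a b := p.mapLe (del_le F S)
  have hq : q.IsPath := by
    simpa [q] using hp
  have hsq : s ∉ q.support := by
    simpa [q] using h1
  have hc : (Walk.cons ha q).IsPath := by
    rw [Walk.cons_isPath_iff]
    exact ⟨hq, hsq⟩
  have h2 : b ∈ (Walk.cons ha q).support := Walk.end_mem_support _
  have h3 := hF.eq_snd_of_adj_start hc hb h2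
  simpa using h3.symm

section fin

variable [Fintype V]

/-- The components outside `S`. -/
def cc (F : SimpleGraph V) (S : Finset V) : Set (del F S).ConnectedComponent :=
  (del F S).connectedComponentMk '' {a | a ∉ S}

theorem split [DecidableEq V] {F : SimpleGraph V} (hF : F.IsAcyclic) {S : Finset V} {s : V} (hs : s ∉ S)
    {N : Finset V} (hN : ∀ a ∈ N, F.Adj s a ∧ a ∉ S) :
    (cc F S).ncard + N.card ≤ (cc F (insert s S)).ncard + 1 := by
  classical
  have hle : del F (insert s S) ≤ del F S := del_anti (Finset.subset_insert _ _)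
  let φ : (del F (insert s S)).ConnectedComponent → (del F S).ConnectedComponent :=
    ConnectedComponent.map (Hom.ofLE hle)
  have hφ : ∀ a, φ ((del F (insert s S)).connectedComponentMk a) = (del F S).connectedComponentMk a :=
    fun a => rfl
  let c0 := (del F S).connectedComponentMk s
  -- the neighbours
  let B : Set (del F (insert s S)).ConnectedComponent :=
    (del F (insert s S)).connectedComponentMk '' (N : Set V)
  have hB : B.ncard = N.card := by
    rw [Set.InjOn.ncard_image, Set.ncard_coe_finset]
    intro a ha b hb hab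
    exact not_reach hF (Finset.mem_insert_self s S) (hN a ha).1 (hN b hb).1 (ConnectedComponent.exact hab)
  have hBs : B ⊆ cc F (insert s S) := by
    rintro _ ⟨a, ha, rfl⟩
    refine ⟨a, ?_, rfl⟩
    rw [Set.mem_ofPred_eq, Finset.mem_insert, not_or]
    exact ⟨(hN a ha).1.ne', (hN a ha).2⟩
  have hBφ : ∀ c ∈ B, φ c = c0 := by
    rintro _ ⟨a, ha, rfl⟩
    rw [hφ]
    exact ConnectedComponent.sound (Adj.reachable ⟨(hN a ha).1.symm, (hN a ha).2, hs⟩)
  -- the other components
  let A : Set (del F (insert s S)).ConnectedComponent := cc F (insert s S) \ B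
  have hA : cc F S \ {c0} ⊆ φ '' A := by
    rintro _ ⟨⟨a, ha, rfl⟩, hc⟩
    refine ⟨(del F (insert s S)).connectedComponentMk a, ⟨⟨a, ?_, rfl⟩, fun h => hc ?_⟩, hφ a⟩
    · rw [Set.mem_ofPred_eq, Finset.mem_insert, not_or]
      refine ⟨?_, ha⟩
      rintro rfl
      exact hc rfl
    · have := hBφ _ h
      rw [hφ] at this
      exact this
  have h1 : (cc F S \ {c0}).ncard ≤ A.ncard :=
    (Set.ncard_le_ncard hA (Set.toFinite _)).trans (Set.ncard_image_le (Set.toFinite _))
  have h2 : A.ncard + B.ncard = (cc F (insert s S)).ncard :=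
    Set.ncard_sdiff_add_ncard_of_subset hBs (Set.toFinite _)
  have h3 : (cc F S).ncard ≤ (cc F S \ {c0}).ncard + 1 := by
    have := Set.ncard_le_ncard_sdiff_add_ncard (cc F S) {c0} (Set.toFinite _)
    rwa [Set.ncard_singleton] at this
  omega

/-- A forest has a leaf in every nonempty set. -/
theorem leaf {F : SimpleGraph V} (hF : F.IsAcyclic) {S : Finset V} (hS : S.Nonempty) :
    ∃ s ∈ S, ∀ a ∈ S, ∀ b ∈ S, F.Adj s a → F.Adj s b → a = b := by
  classical
  let G : SimpleGraph V :=
    { Adj := fun a b => F.Adj a b ∧ a ∈ S ∧ b ∈ S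
      symm := ⟨fun _ _ h => ⟨h.1.symm, h.2.2, h.2.1⟩⟩
      loopless := ⟨fun a h => F.loopless.irrefl a h.1⟩ }
  have hG : G.IsAcyclic := hF.anti fun _ _ h => h.1
  obtain ⟨s0, hs0⟩ := hS
  have : Nonempty V := ⟨s0⟩
  obtain ⟨u, v, p, hp, hmax⟩ := Walk.exists_isPath_forall_isPath_length_le_length G
  by_cases hnil : p.Nil
  · refine ⟨s0, hs0, fun a ha b _ hab _ => ?_⟩
    have h1 : G.Adj s0 a := ⟨hab, hs0, ha⟩
    have h2 := hmax s0 a (Walk.cons h1 Walk.nil) (by
      rw [Walk.cons_isPath_iff]
      exact ⟨Walk.IsPath.nil, by simpa using h1.ne⟩)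
    rw [Walk.length_eq_zero_iff.2 hnil] at h2
    simp at h2
  · have hu := p.adj_snd hnil
    have key : ∀ w, G.Adj u w → w = p.snd := by
      intro w hw
      by_cases hs : w ∈ p.support
      · exact hG.eq_snd_of_adj_start hp hw hs
      · exfalso
        have h2 := hmax w v (Walk.cons hw.symm p) (by
          rw [Walk.cons_isPath_iff]
          exact ⟨hp, hs⟩)
        simp at h2
    exact ⟨u, hu.2.1, fun a ha b hb h1 h2 =>
      (key a ⟨h1, hu.2.1, ha⟩).trans (key b ⟨h2, hu.2.1, hb⟩).symm⟩

end fin

end Count

open SimpleGraph in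
/-- COUNT. -/
theorem count : CountS := by
  classical
  intro V _ F S hF hne hdeg hpre
  have main : ∀ k, ∀ S : Finset V, S.card = k + 1 → (∀ s ∈ S, (F.neighborSet s).ncard = 3) →
      S.card + 3 ≤ (Count.cc F S).ncard := by
    intro k
    induction k with
    | zero =>
      intro S hS hd
      obtain ⟨s, rfl⟩ := Finset.card_eq_one.1 hS
      have hN : ((F.neighborSet s).toFinset).card = 3 := by
        rw [← Set.ncard_eq_toFinset_card']
        exact hd s (Finset.mem_singleton_self s)
      have h1 := Count.split hF (S := ∅) (s := s) (Finset.notMem_empty s) (N := (F.neighborSet s).toFinset)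
        (fun a ha => ⟨by simpa using ha, Finset.notMem_empty a⟩)
      have h2 : 2 ≤ (Count.cc F ∅).ncard := by
        have hd0 : del F ∅ = F := by
          ext a b
          exact ⟨fun h => h.1, fun h => ⟨h, Finset.notMem_empty _, Finset.notMem_empty _⟩⟩
        unfold Preconnected at hpre
        push Not at hpre
        obtain ⟨a, b, hab⟩ := hpre
        have hsub : {(del F ∅).connectedComponentMk a, (del F ∅).connectedComponentMk b} ⊆ Count.cc F ∅ := by
          rintro c (rfl | rfl)
          · exact ⟨a, Finset.notMem_empty a, rfl⟩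
          · exact ⟨b, Finset.notMem_empty b, rfl⟩
        have hne : (del F ∅).connectedComponentMk a ≠ (del F ∅).connectedComponentMk b := by
          intro h
          have := ConnectedComponent.exact h
          rw [hd0] at this
          exact hab this
        have := Set.ncard_le_ncard hsub (Set.toFinite _)
        rwa [Set.ncard_pair hne] at this
      rw [hN] at h1
      have h3 : insert s (∅ : Finset V) = {s} := rfl
      rw [h3] at h1
      rw [Finset.card_singleton]
      omega
    | succ k ih =>
      intro S hS hd
      obtain ⟨s, hs, hl⟩ := Count.leaf hF (S := S) (Finset.card_pos.1 (by omega))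
      have hc : (S.erase s).card = k + 1 := by
        rw [Finset.card_erase_of_mem hs, hS]
        rfl
      have h0 := ih (S.erase s) hc fun a ha => hd a (Finset.mem_of_mem_erase ha)
      let N := ((F.neighborSet s).toFinset).filter fun a => a ∉ S.erase s
      have hN : 2 ≤ N.card := by
        have h1 : ((F.neighborSet s).toFinset).card = 3 := by
          rw [← Set.ncard_eq_toFinset_card']
          exact hd s hs
        have h2 : (((F.neighborSet s).toFinset).filter fun a => a ∈ S.erase s).card ≤ 1 := by
          rw [Finset.card_le_one]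
          intro a ha b hb
          rw [Finset.mem_filter] at ha hb
          exact hl a (Finset.mem_of_mem_erase ha.2) b (Finset.mem_of_mem_erase hb.2)
            (by simpa using ha.1) (by simpa using hb.1)
        have h3 := Finset.card_filter_add_card_filter_not (s := (F.neighborSet s).toFinset)
          (fun a => a ∈ S.erase s)
        change _ + N.card = _ at h3
        omega
      have h1 := Count.split hF (S := S.erase s) (s := s) (Finset.notMem_erase s S) (N := N)
        (fun a ha => by
          rw [Finset.mem_filter] at ha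
          exact ⟨by simpa using ha.1, ha.2⟩)
      rw [Finset.insert_erase hs] at h1
      omega
  obtain ⟨k, hk⟩ : ∃ k, S.card = k + 1 := ⟨S.card - 1, by have := Finset.card_pos.2 hne; omega⟩
  exact main k S hk hdeg

end Pool.Agent.Lib.MP_688fd0_co.NC
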