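import Pool.Agent.Lib.MP_688fd0_co.NC.Iface

/-!
# EDGE (helper94): the edge boundary in a Cayley graph is at least the degree
-/

set_option autoImplicit false

namespace Pool.Agent.Lib.MP_688fd0_co.NC

universe u

namespace Edge

section

variable {Q : Type u} [Group Q] [Fintype Q] [DecidableEq Q]

/-- The size of the edge boundary. -/
def bd (S X : Finset Q) : ℕ := ∑ x : Q, ∑ s ∈ S, if x ∈ X ∧ x * s ∉ X then 1 else 0

theorem bd_eq (S X : Finset Q) : bd S X = ((X ×ˢ S).filter fun p => p.1 * p.2 ∉ X).card := by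
  rw [Finset.card_filter, Finset.sum_product]
  unfold bd
  rw [← Finset.sum_subset (Finset.subset_univ X)]
  · refine Finset.sum_congr rfl fun x hx => Finset.sum_congr rfl fun s _ => ?_
    by_cases h : x * s ∈ X
    · simp [h]
    · simp [h, hx]
  · intro x _ hx
    refine Finset.sum_eq_zero fun s _ => ?_
    simp [hx]

/-- Submodularity. -/
theorem bd_sub (S X Y : Finset Q) : bd S (X ∩ Y) + bd S (X ∪ Y) ≤ bd S X + bd S Y := by
  unfold bd
  rw [← Finset.sum_add_distrib, ← Finset.sum_add_distrib]
  refine Finset.sum_le_sum fun x _ => ?_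
  rw [← Finset.sum_add_distrib, ← Finset.sum_add_distrib]
  refine Finset.sum_le_sum fun s _ => ?_
  by_cases h1 : x ∈ X <;> by_cases h2 : x ∈ Y <;> by_cases h3 : x * s ∈ X <;>
    by_cases h4 : x * s ∈ Y <;> simp [h1, h2, h3, h4]

theorem bd_compl (S X : Finset Q) (hinv : ∀ s ∈ S, s⁻¹ ∈ S) : bd S Xᶜ = bd S X := by
  unfold bd
  rw [Finset.sum_comm, Finset.sum_comm (s := Finset.univ) (t := S) (f := fun x s =>
    if x ∈ X ∧ x * s ∉ X then 1 else 0)]
  refine Finset.sum_bij' (fun s _ => s⁻¹) (fun s _ => s⁻¹) (fun s hs => hinv s hs)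
    (fun s hs => hinv s hs) (fun s _ => inv_inv s) (fun s _ => inv_inv s) (fun s _ => ?_)
  refine Fintype.sum_equiv (Equiv.mulRight s) _ _ fun x => ?_
  rw [Equiv.coe_mulRight, mul_inv_cancel_right]
  by_cases h1 : x ∈ X <;> by_cases h2 : x * s ∈ X <;> simp [h1, h2]

/-- The translate `g X`. -/
def tr (g : Q) (X : Finset Q) : Finset Q := Finset.univ.filter fun y => g⁻¹ * y ∈ X

theorem mem_tr {g y : Q} {X : Finset Q} : y ∈ tr g X ↔ g⁻¹ * y ∈ X := by
  unfold tr
  simp

theorem bd_tr (S X : Finset Q) (g : Q) : bd S (tr g X) = bd S X := by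
  unfold bd
  refine Fintype.sum_equiv (Equiv.mulLeft g⁻¹) _ _ fun x => ?_
  refine Finset.sum_congr rfl fun s _ => ?_
  simp only [mem_tr, Equiv.coe_mulLeft, mul_assoc]

theorem card_tr (X : Finset Q) (g : Q) : (tr g X).card = X.card := by
  have h : tr g X = X.image (fun x => g * x) := by
    ext y
    rw [mem_tr, Finset.mem_image]
    constructor
    · intro h
      exact ⟨g⁻¹ * y, h, by rw [mul_inv_cancel_left]⟩
    · rintro ⟨x, hx, rfl⟩
      rwa [inv_mul_cancel_left]
  rw [h, Finset.card_image_of_injective _ (mul_right_injective g)]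

end

end Edge

open Edge

/-- EDGE. -/
theorem edge : EdgeS.{u} := by
  intro Q _ _ _ S h1 hinv hgen X0 hX0 hX0'
  rw [← bd_eq]
  -- a smallest counterexample
  let N := Fintype.card Q + 1
  let m : Finset Q → ℕ := fun X => bd S X * N + X.card
  obtain ⟨X, hX, hmin⟩ := Finset.exists_min_image
    (Finset.univ.filter fun X : Finset Q => X.Nonempty ∧ X ≠ Finset.univ) m
    ⟨X0, by simp only [Finset.mem_filter, Finset.mem_univ, true_and]; exact ⟨hX0, hX0'⟩⟩
  simp only [Finset.mem_filter, Finset.mem_univ, true_and] at hX hmin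
  have hN : ∀ Y : Finset Q, Y.card < N := fun Y => Nat.lt_succ_of_le (Finset.card_le_univ Y)
  have hb : ∀ Y : Finset Q, Y.Nonempty → Y ≠ Finset.univ → bd S X ≤ bd S Y := by
    intro Y hY hY'
    by_contra hcon
    have h2 : m X ≤ m Y := hmin Y ⟨hY, hY'⟩
    have h3 : (bd S Y + 1) * N ≤ bd S X * N := Nat.mul_le_mul_right _ (by omega)
    have h4 : m Y < (bd S Y + 1) * N := by
      rw [add_mul, one_mul]
      exact Nat.add_lt_add_left (hN Y) _
    have h5 : bd S X * N ≤ m X := Nat.le_add_right _ _
    omega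
  have hc : ∀ Y : Finset Q, Y.Nonempty → Y ≠ Finset.univ → bd S Y ≤ bd S X → X.card ≤ Y.card := by
    intro Y hY hY' h
    have h2 : m X ≤ m Y := hmin Y ⟨hY, hY'⟩
    have h3 : bd S Y = bd S X := le_antisymm h (hb Y hY hY')
    have h4 : bd S X * N + X.card ≤ bd S Y * N + Y.card := h2
    rw [h3] at h4
    omega
  refine le_trans ?_ (hb X0 hX0 hX0')
  -- X has at most half of the elements
  have hhalf : X.card + X.card ≤ Fintype.card Q := by
    have h2 : X.card ≤ Xᶜ.card := by
      refine hc Xᶜ ?_ ?_ (le_of_eq (bd_compl S X hinv))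
      · rw [Finset.nonempty_iff_ne_empty]
        intro h
        exact hX.2 ((Finset.compl_eq_empty_iff X).1 h)
      · intro h
        rw [Finset.compl_eq_univ_iff] at h
        exact hX.1.ne_empty h
    have h3 := Finset.card_add_card_compl X
    omega
  -- translates are equal or disjoint
  have htr : ∀ g y : Q, y ∈ X → y ∈ tr g X → tr g X = X := by
    intro g y hy hy'
    by_contra hne
    have h2 : (X ∩ tr g X).Nonempty := ⟨y, Finset.mem_inter.2 ⟨hy, hy'⟩⟩
    have h3 : (X ∪ tr g X) ≠ Finset.univ := by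
      intro h
      have h4 := Finset.card_union_add_card_inter X (tr g X)
      rw [h, Finset.card_univ, card_tr] at h4
      have h5 := h2.card_pos
      omega
    have h4 : (X ∩ tr g X) ≠ Finset.univ := fun h => h3 (by
      rw [Finset.eq_univ_iff_forall] at h ⊢
      intro z
      exact Finset.mem_union_left _ (Finset.mem_inter.1 (h z)).1)
    have h5 := hb _ ⟨y, Finset.mem_union_left _ hy⟩ h3
    have h6 := bd_sub S X (tr g X)
    rw [bd_tr] at h6
    have h7 : X.card ≤ (X ∩ tr g X).card := hc _ h2 h4 (by omega)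
    have h8 : X ∩ tr g X = X := Finset.eq_of_subset_of_card_le Finset.inter_subset_left h7
    have h9 : X ⊆ tr g X := Finset.inter_eq_left.1 h8
    exact hne (Finset.eq_of_subset_of_card_le h9 (le_of_eq (card_tr X g))).symm
  -- the subgroup
  obtain ⟨a, ha⟩ := hX.1
  let H : Subgroup Q :=
    { carrier := {h | a * h ∈ X}
      one_mem' := by
        change a * 1 ∈ X
        rwa [mul_one]
      mul_mem' := by
        intro g h hg hh
        change a * g ∈ X at hg
        change a * h ∈ X at hh
        change a * (g * h) ∈ X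
        -- translate by a g a⁻¹
        have h2 : tr (a * g * a⁻¹) X = X := by
          refine htr _ (a * g) hg ?_
          rw [mem_tr]
          have : (a * g * a⁻¹)⁻¹ * (a * g) = a := by group
          rwa [this]
        rw [← h2, mem_tr]
        have : (a * g * a⁻¹)⁻¹ * (a * (g * h)) = a * h := by group
        rwa [this]
      inv_mem' := by
        intro g hg
        change a * g ∈ X at hg
        change a * g⁻¹ ∈ X
        have h2 : tr (a * g⁻¹ * a⁻¹) X = X := by
          refine htr _ a ha ?_
          rw [mem_tr]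
          have : (a * g⁻¹ * a⁻¹)⁻¹ * a = a * g := by group
          rwa [this]
        rw [← h2, mem_tr]
        have : (a * g⁻¹ * a⁻¹)⁻¹ * (a * g⁻¹) = a := by group
        rwa [this] }
  have hH : ∀ h, h ∈ H ↔ a * h ∈ X := fun h => Iff.rfl
  classical
  -- the boundary
  have hbX : bd S X = X.card * (S.filter fun s => s ∉ H).card := by
    unfold bd
    rw [← Finset.sum_subset (Finset.subset_univ X)]
    · rw [Finset.card_filter, ← smul_eq_mul, ← Finset.sum_const]
      refine Finset.sum_congr rfl fun x hx => Finset.sum_congr rfl fun s _ => ?_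
      have h2 : x * s ∈ X ↔ s ∈ H := by
        have h3 : a⁻¹ * x ∈ H := by
          rw [hH, mul_inv_cancel_left]
          exact hx
        have h4 : x * s ∈ X ↔ a⁻¹ * x * s ∈ H := by
          rw [hH, mul_assoc, mul_inv_cancel_left]
        rw [h4, H.mul_mem_cancel_left h3]
      by_cases h3 : s ∈ H
      · simp [h3, h2]
      · simp [h3, h2, hx]
    · intro x _ hx
      refine Finset.sum_eq_zero fun s _ => ?_
      simp [hx]
  have hin : (S.filter fun s => s ∈ H).card + 1 ≤ X.card := by
    have h2 : (insert 1 (S.filter fun s => s ∈ H)).image (fun h => a * h) ⊆ X := by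
      intro y hy
      obtain ⟨h, hh, rfl⟩ := Finset.mem_image.1 hy
      rcases Finset.mem_insert.1 hh with rfl | hh
      · rwa [mul_one]
      · exact (hH h).1 (Finset.mem_filter.1 hh).2
    have h3 := Finset.card_le_card h2
    rw [Finset.card_image_of_injective _ (mul_right_injective a),
      Finset.card_insert_of_notMem (fun h => h1 (Finset.mem_filter.1 h).1)] at h3
    exact h3
  have hout : 1 ≤ (S.filter fun s => s ∉ H).card := by
    rw [Nat.one_le_iff_ne_zero, Finset.card_ne_zero]
    by_contra hcon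
    rw [Finset.not_nonempty_iff_eq_empty, Finset.filter_eq_empty_iff] at hcon
    have h2 : Subgroup.closure (S : Set Q) ≤ H := by
      rw [Subgroup.closure_le]
      intro s hs
      exact not_not.1 (hcon (Finset.mem_coe.1 hs))
    rw [hgen, top_le_iff] at h2
    refine hX.2 (Finset.eq_univ_iff_forall.2 fun y => ?_)
    have h3 : a⁻¹ * y ∈ H := by rw [h2]; exact Subgroup.mem_top _
    rwa [hH, mul_inv_cancel_left] at h3
  have hsplit := Finset.card_filter_add_card_filter_not (s := S) (fun s => s ∈ H)
  rw [hbX]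
  obtain ⟨x, hx⟩ : ∃ x, X.card = x + 1 := ⟨X.card - 1, by omega⟩
  obtain ⟨o, ho⟩ : ∃ o, (S.filter fun s => s ∉ H).card = o + 1 :=
    ⟨(S.filter fun s => s ∉ H).card - 1, (Nat.sub_add_cancel hout).symm⟩
  rw [ho] at hsplit ⊢
  rw [hx] at hin ⊢
  nlinarith [Nat.zero_le (x * o)]

end Pool.Agent.Lib.MP_688fd0_co.NC
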