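import Pool.Agent.Lib.MP_688fd0_co.NC.Iface

/-!
THEOREM N, the path: from a listing sequence of a normal subgroup of order at least three and a rooted tree of the quotient
with at most two children at every vertex to a listing sequence of the group.
-/

set_option autoImplicit false

namespace Pool.Agent.Lib.MP_688fd0_co.NC

open Pool.Agent.Lib.MP_688fd0_co.OSF

universe u

variable {G : Type u} [Group G] {A : Set G}

/-- A path from `a` to `b` with vertex set `D`. -/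
inductive Pt (A : Set G) : Set G → G → G → Prop
  | one (a : G) : Pt A {a} a a
  | cons {a b c : G} {D : Set G} : a⁻¹ * b ∈ A → a ∉ D → Pt A D b c → Pt A (insert a D) a c

theorem Pt.congr {D D' : Set G} {a b : G} (h : Pt A D a b) (e : D = D') : Pt A D' a b := e ▸ h

theorem Pt.append {D D' : Set G} {a b a' b' : G} (h : Pt A D a b) (h' : Pt A D' a' b') (hd : Disjoint D D')
    (he : b⁻¹ * a' ∈ A) : Pt A (D ∪ D') a b' := by
  induction h with
  | one a => exact Pt.cons he (fun h => Set.disjoint_left.1 hd rfl h) h'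
  | @cons a b c D hab haD _ ih =>
    rw [Set.insert_union]
    refine Pt.cons hab ?_ (ih (hd.mono_left (Set.subset_insert _ _)) he)
    rintro (h | h)
    · exact haD h
    · exact Set.disjoint_left.1 hd (Set.mem_insert _ _) h

theorem inv_edge (hsym : ∀ x ∈ A, x⁻¹ ∈ A) {a b : G} (h : a⁻¹ * b ∈ A) : b⁻¹ * a ∈ A := by
  have := hsym _ h; rwa [mul_inv_rev, inv_inv] at this

theorem Pt.rev (hsym : ∀ x ∈ A, x⁻¹ ∈ A) {D : Set G} {a b : G} (h : Pt A D a b) : Pt A D b a := by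
  induction h with
  | one a => exact Pt.one a
  | @cons a b c D hab haD _ ih =>
    refine (ih.append (Pt.one a) ?_ (inv_edge hsym hab)).congr ?_
    · rw [Set.disjoint_singleton_right]; exact haD
    · rw [Set.union_comm]; rfl

theorem Pt.seq {D : Set G} {a b : G} (h : Pt A D a b) : ∃ (n : ℕ) (v : ℕ → G), v 0 = a ∧
    (∀ k < n, (v k)⁻¹ * v (k + 1) ∈ A) ∧ (∀ i ≤ n, ∀ j ≤ n, v i = v j → i = j) ∧ ∀ g, g ∈ D ↔ ∃ k ≤ n, v k = g := by
  induction h with
  | one a =>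
    refine ⟨0, fun _ => a, rfl, fun k hk => absurd hk (Nat.not_lt_zero k), fun i hi j hj _ => by omega, fun g => ?_⟩
    constructor
    · rintro rfl; exact ⟨0, le_rfl, rfl⟩
    · rintro ⟨k, -, rfl⟩; exact Set.mem_singleton _
  | @cons a b c D hab haD _ ih =>
    obtain ⟨n, v, h0, he, hi, hD⟩ := ih
    refine ⟨n + 1, fun k => if k = 0 then a else v (k - 1), by simp, fun k hk => ?_, fun i hi' j hj' hij => ?_,
      fun g => ?_⟩
    · rcases Nat.eq_zero_or_pos k with rfl | hk0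
      · simpa [h0] using hab
      · have h1 : (k : ℕ) ≠ 0 := by omega
        have h2 := he (k - 1) (by omega)
        rw [Nat.sub_add_cancel hk0] at h2
        simpa [h1] using h2
    · rcases Nat.eq_zero_or_pos i with rfl | hi0
      · rcases Nat.eq_zero_or_pos j with rfl | hj0
        · rfl
        · exfalso
          have h1 : (j : ℕ) ≠ 0 := by omega
          simp only [if_true, h1, if_false] at hij
          exact haD ((hD _).2 ⟨j - 1, by omega, hij.symm⟩)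
      · have h1 : (i : ℕ) ≠ 0 := by omega
        rcases Nat.eq_zero_or_pos j with rfl | hj0
        · exfalso
          simp only [if_true, h1, if_false] at hij
          exact haD ((hD _).2 ⟨i - 1, by omega, hij⟩)
        · have h2 : (j : ℕ) ≠ 0 := by omega
          simp only [h1, h2, if_false] at hij
          have := hi _ (by omega) _ (by omega) hij
          omega
    · constructor
      · rintro (rfl | hg)
        · exact ⟨0, by omega, by simp⟩
        · obtain ⟨k, hk, rfl⟩ := (hD g).1 hg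
          exact ⟨k + 1, by omega, by simp⟩
      · rintro ⟨k, hk, rfl⟩
        rcases Nat.eq_zero_or_pos k with rfl | hk0
        · exact Or.inl (by simp)
        · have h1 : (k : ℕ) ≠ 0 := by omega
          exact Or.inr ((hD _).2 ⟨k - 1, by omega, by simp [h1]⟩)

/-- A walk through all vertices (the start vertex is not counted). -/
theorem lst_of_walk {G : Type*} [Group G] (A : Set G) (n : ℕ) (v : ℕ → G)
    (he : ∀ k < n, (v k)⁻¹ * v (k + 1) ∈ A) (hi : ∀ i < n, ∀ j < n, v (i + 1) = v (j + 1) → i = j)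
    (hs : ∀ g, ∃ k < n, v (k + 1) = g) : Lst A := by
  have hb : Function.Bijective (fun i : Fin n => v ((i : ℕ) + 1)) := by
    constructor
    · intro i j hij
      exact Fin.ext (hi i i.2 j j.2 hij)
    · intro g
      obtain ⟨k, hk, h⟩ := hs g
      exact ⟨⟨k, hk⟩, h⟩
  have hcard : Nat.card G = n := by
    rw [← Nat.card_congr (Equiv.ofBijective _ hb)]
    simp
  set a : Fin (Nat.card G) → G := fun i => (v (i : ℕ))⁻¹ * v ((i : ℕ) + 1) with ha
  have key : ∀ k ≤ Nat.card G, ((List.ofFn a).take k).prod = (v 0)⁻¹ * v k := by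
    intro k
    induction k with
    | zero => intro _; simp
    | succ k ih =>
      intro hk
      have hk' : k < (List.ofFn a).length := by rw [List.length_ofFn]; omega
      rw [List.prod_take_succ _ _ hk', ih (by omega)]
      simp only [List.getElem_ofFn, ha]
      rw [mul_assoc, mul_inv_cancel_left]
  refine ⟨a, fun i => he _ (hcard ▸ i.2), ?_⟩
  intro i j hij
  simp only at hij
  rw [key _ (by omega), key _ (by omega)] at hij
  exact Fin.ext (hi _ (hcard ▸ i.2) _ (hcard ▸ j.2) (mul_left_cancel hij))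

theorem Pt.lst (hA : A.Nonempty) {a b : G} (h : Pt A Set.univ a b) : Lst A := by
  obtain ⟨n, v, h0, he, hi, hD⟩ := h.seq
  obtain ⟨s, hs⟩ := hA
  refine lst_of_walk A (n + 1) (fun k => if k = 0 then v 0 * s⁻¹ else v (k - 1)) (fun k hk => ?_) (fun i hi' j hj' hij => ?_)
    (fun g => ?_)
  · rcases Nat.eq_zero_or_pos k with rfl | hk0
    · simpa using hs
    · have h1 : (k : ℕ) ≠ 0 := by omega
      have h2 := he (k - 1) (by omega)
      rw [Nat.sub_add_cancel hk0] at h2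
      simpa [h1] using h2
  · simp only [Nat.add_eq_zero_iff, one_ne_zero, and_false, if_false, Nat.add_sub_cancel] at hij
    exact hi _ (by omega) _ (by omega) hij
  · obtain ⟨k, hk, h⟩ := (hD g).1 trivial
    exact ⟨k, by omega, by simpa using h⟩

/-- A listing sequence of `N`, from `1`. -/
structure Seq (A : Set G) (N : Subgroup G) (E : ℕ) (v : ℕ → G) : Prop where
  mem : ∀ i ≤ E, v i ∈ N
  inj : ∀ i ≤ E, ∀ j ≤ E, v i = v j → i = j
  sur : ∀ g ∈ N, ∃ i ≤ E, v i = g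
  edge : ∀ i < E, (v i)⁻¹ * v (i + 1) ∈ A
  zero : v 0 = 1

variable {N : Subgroup G} {E : ℕ} {v : ℕ → G}

theorem Seq.rev (hsym : ∀ x ∈ A, x⁻¹ ∈ A) (S : Seq A N E v) : Seq A N E (fun i => (v E)⁻¹ * v (E - i)) where
  mem i _ := N.mul_mem (N.inv_mem (S.mem E le_rfl)) (S.mem _ (by omega))
  inj i hi j hj h := by
    have := S.inj (E - i) (by omega) (E - j) (by omega) (mul_left_cancel h)
    omega
  sur g hg := by
    obtain ⟨i, hi, h⟩ := S.sur (v E * g) (N.mul_mem (S.mem E le_rfl) hg)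
    refine ⟨E - i, by omega, ?_⟩
    show (v E)⁻¹ * v (E - (E - i)) = g
    rw [Nat.sub_sub_self hi, h, inv_mul_cancel_left]
  edge i hi := by
    show ((v E)⁻¹ * v (E - i))⁻¹ * ((v E)⁻¹ * v (E - (i + 1))) ∈ A
    have h := S.edge (E - (i + 1)) (by omega)
    rw [show E - (i + 1) + 1 = E - i by omega] at h
    have h2 := hsym _ h
    rw [mul_inv_rev, inv_inv] at h2
    rwa [mul_inv_rev, inv_inv, mul_assoc, mul_inv_cancel_left]
  zero := by show (v E)⁻¹ * v (E - 0) = 1; rw [Nat.sub_zero, inv_mul_cancel]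

/-- The vertices `x * v k`, `k ∈ I`. -/
def im (v : ℕ → G) (x : G) (I : Set ℕ) : Set G := (fun k => x * v k) '' I

theorem im_disj (S : Seq A N E v) (x : G) {I J : Set ℕ} (hI : ∀ i ∈ I, i ≤ E) (hJ : ∀ i ∈ J, i ≤ E)
    (h : ∀ i ∈ I, i ∉ J) : Disjoint (im v x I) (im v x J) := by
  rw [Set.disjoint_left]
  rintro _ ⟨i, hi, rfl⟩ ⟨j, hj, hij⟩
  have := S.inj j (hJ j hj) i (hI i hi) (mul_left_cancel hij)
  subst this
  exact h _ hi hj

theorem seg_up (S : Seq A N E v) (x : G) (i j : ℕ) (hij : i ≤ j) (hj : j ≤ E) :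
    Pt A (im v x (Set.Icc i j)) (x * v i) (x * v j) := by
  induction j with
  | zero =>
    obtain rfl : i = 0 := by omega
    refine (Pt.one (x * v 0)).congr ?_
    simp [im]
  | succ j ih =>
    rcases Nat.lt_or_ge j i with h | h
    · obtain rfl : i = j + 1 := by omega
      refine (Pt.one _).congr ?_
      simp [im]
    · have h1 := (ih h (by omega)).append (Pt.one (x * v (j + 1))) ?_ ?_
      · refine h1.congr ?_
        have h2 : (Set.Icc i (j + 1)) = Set.Icc i j ∪ {j + 1} := by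
          ext k; simp only [Set.mem_Icc, Set.mem_union, Set.mem_singleton_iff]; omega
        rw [h2, im, im, Set.image_union, Set.image_singleton]
      · rw [Set.disjoint_singleton_right]
        rintro ⟨k, hk, h3⟩
        have := S.inj k (by have := hk.2; omega) (j + 1) hj (mul_left_cancel h3)
        have := hk.2
        omega
      · have h4 := S.edge j (by omega)
        rwa [mul_inv_rev, mul_assoc, inv_mul_cancel_left]

theorem seg_down (hsym : ∀ x ∈ A, x⁻¹ ∈ A) (S : Seq A N E v) (x : G) (i j : ℕ) (hij : i ≤ j) (hj : j ≤ E) :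
    Pt A (im v x (Set.Icc i j)) (x * v j) (x * v i) := (seg_up S x i j hij hj).rev hsym

theorem im_full [N.Normal] (S : Seq A N E v) (x : G) :
    im v x (Set.Icc 0 E) = {g : G | (g : G ⧸ N) = (x : G ⧸ N)} := by
  ext g
  constructor
  · rintro ⟨k, hk, rfl⟩
    have h1 := S.mem k hk.2
    show ((x * v k : G) : G ⧸ N) = x
    rw [QuotientGroup.mk_mul, (QuotientGroup.eq_one_iff _).2 h1, mul_one]
  · intro h
    have h1 : x⁻¹ * g ∈ N := QuotientGroup.eq.1 (show (x : G ⧸ N) = g from Eq.symm h)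
    obtain ⟨k, hk, h2⟩ := S.sur _ h1
    exact ⟨k, ⟨Nat.zero_le _, hk⟩, by simp [h2]⟩

/-- An excursion: from every `y` over `q` through `D` to `y * n`. -/
def Exc (A : Set G) (N : Subgroup G) [N.Normal] (q : G ⧸ N) (D : Set G) (n : G) : Prop :=
  ∀ y : G, (y : G ⧸ N) = q → ∃ a b, y⁻¹ * a ∈ A ∧ Pt A D a b ∧ b⁻¹ * (y * n) ∈ A

theorem mk_mul_mem [N.Normal] {n : G} (hn : n ∈ N) {y : G} {q : G ⧸ N} (hy : (y : G ⧸ N) = q) :
    ((y * n : G) : G ⧸ N) = q := by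
  rw [QuotientGroup.mk_mul, (QuotientGroup.eq_one_iff _).2 hn, mul_one, hy]

theorem Exc.inv [N.Normal] (hsym : ∀ x ∈ A, x⁻¹ ∈ A) {q : G ⧸ N} {D : Set G} {n : G} (hn : n ∈ N)
    (h : Exc A N q D n) : Exc A N q D n⁻¹ := by
  intro y hy
  obtain ⟨a, b, h1, h2, h3⟩ := h (y * n⁻¹) (mk_mul_mem (N.inv_mem hn) hy)
  rw [inv_mul_cancel_right] at h3
  exact ⟨b, a, inv_edge hsym h3, h2.rev hsym, inv_edge hsym h1⟩

theorem Pt.jump [N.Normal] {q : G ⧸ N} {D D' D'' : Set G} {n x y z : G} (h : Pt A D x y) (hy : (y : G ⧸ N) = q)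
    (he : Exc A N q D' n) (h' : Pt A D'' (y * n) z) (h1 : Disjoint D D') (h2 : Disjoint D D'')
    (h3 : Disjoint D' D'') : Pt A (D ∪ (D' ∪ D'')) x z := by
  obtain ⟨a, b, h4, h5, h6⟩ := he y hy
  exact h.append (h5.append h' h3 h6) (Set.disjoint_union_right.2 ⟨h1, h2⟩) h4

theorem im_disj_right [N.Normal] (S : Seq A N E v) {x : G} {q : G ⧸ N} (hx : (x : G ⧸ N) = q) {I : Set ℕ}
    (hI : ∀ i ∈ I, i ≤ E) {D : Set G} (hD : ∀ g ∈ D, (g : G ⧸ N) ≠ q) : Disjoint (im v x I) D := by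
  rw [Set.disjoint_left]
  rintro _ ⟨i, hi, rfl⟩ h
  exact hD _ h (mk_mul_mem (S.mem i (hI i hi)) hx)

/-- The pattern `0 .. u`, `t + 1 .. E`, `t .. u + 1`. -/
theorem patA [N.Normal] (hsym : ∀ x ∈ A, x⁻¹ ∈ A) (S : Seq A N E v) {q : G ⧸ N} {D₁ D₂ : Set G} {n₁ n₂ : G}
    (e₁ : Exc A N q D₁ n₁) (e₂ : Exc A N q D₂ n₂) (hD₁ : ∀ g ∈ D₁, (g : G ⧸ N) ≠ q)
    (hD₂ : ∀ g ∈ D₂, (g : G ⧸ N) ≠ q) (hd : Disjoint D₁ D₂) (u t : ℕ) (hut : u < t) (htE : t < E)
    (h1 : v u * n₁ = v (t + 1)) (h2 : v E * n₂ = v t) (x : G) (hx : (x : G ⧸ N) = q) :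
    Pt A ({g : G | (g : G ⧸ N) = q} ∪ (D₁ ∪ D₂)) x (x * v (u + 1)) := by
  have p1 := seg_up S x 0 u (by omega) (by omega)
  have p2 := seg_up S x (t + 1) E (by omega) le_rfl
  have p3 := seg_down hsym S x (u + 1) t (by omega) (by omega)
  rw [← h2, ← mul_assoc] at p3
  rw [← h1, ← mul_assoc] at p2
  have p4 := p2.jump (mk_mul_mem (S.mem _ le_rfl) hx) e₂ p3
    (im_disj_right S hx (fun i hi => hi.2) hD₂)
    (im_disj S x (fun i hi => hi.2) (fun i hi => by have := hi.2; omega) (fun i hi hi' => by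
      have := hi.1; have := hi'.2; omega))
    (im_disj_right S hx (fun i hi => by have := hi.2; omega) hD₂).symm
  have p5 := p1.jump (mk_mul_mem (S.mem _ (by omega)) hx) e₁ p4
    (im_disj_right S hx (fun i hi => by have := hi.2; omega) hD₁)
    (Set.disjoint_union_right.2 ⟨im_disj S x (fun i hi => by have := hi.2; omega) (fun i hi => hi.2)
        (fun i hi hi' => by have := hi.2; have := hi'.1; omega),
      Set.disjoint_union_right.2 ⟨im_disj_right S hx (fun i hi => by have := hi.2; omega) hD₂,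
        im_disj S x (fun i hi => by have := hi.2; omega) (fun i hi => by have := hi.2; omega)
          (fun i hi hi' => by have := hi.2; have := hi'.1; omega)⟩⟩)
    (Set.disjoint_union_right.2 ⟨(im_disj_right S hx (fun i hi => hi.2) hD₁).symm,
      Set.disjoint_union_right.2 ⟨hd, (im_disj_right S hx (fun i hi => by have := hi.2; omega) hD₁).symm⟩⟩)
  rw [S.zero, mul_one] at p5
  refine p5.congr ?_
  rw [← hx, ← im_full S x]
  have h3 : Set.Icc 0 E = Set.Icc 0 u ∪ (Set.Icc (t + 1) E ∪ Set.Icc (u + 1) t) := by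
    ext k; simp only [Set.mem_Icc, Set.mem_union]; omega
  rw [h3]
  simp only [im, Set.image_union]
  ext g
  simp only [Set.mem_union]
  tauto

/-- The pattern `0 .. t`, `E .. u`, `t + 1 .. u - 1`. -/
theorem patB [N.Normal] (hsym : ∀ x ∈ A, x⁻¹ ∈ A) (S : Seq A N E v) {q : G ⧸ N} {D₁ D₂ : Set G} {n₁ n₂ : G}
    (e₁ : Exc A N q D₁ n₁) (e₂ : Exc A N q D₂ n₂) (hD₁ : ∀ g ∈ D₁, (g : G ⧸ N) ≠ q)
    (hD₂ : ∀ g ∈ D₂, (g : G ⧸ N) ≠ q) (hd : Disjoint D₁ D₂) (u t : ℕ) (hut : t + 1 ≤ u) (huE : u + 1 ≤ E)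
    (h1 : v (u + 1) * n₁ = v (t + 1)) (h2 : v t * n₂ = v E) (x : G) (hx : (x : G ⧸ N) = q) :
    Pt A ({g : G | (g : G ⧸ N) = q} ∪ (D₁ ∪ D₂)) x (x * v u) := by
  have p1 := seg_up S x 0 t (by omega) (by omega)
  have p2 := seg_down hsym S x (u + 1) E (by omega) le_rfl
  have p3 := seg_up S x (t + 1) u (by omega) (by omega)
  rw [← h2, ← mul_assoc] at p2
  rw [← h1, ← mul_assoc] at p3
  have p4 := p2.jump (mk_mul_mem (S.mem _ (by omega)) hx) e₁ p3
    (im_disj_right S hx (fun i hi => hi.2) hD₁)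
    (im_disj S x (fun i hi => hi.2) (fun i hi => by have := hi.2; omega) (fun i hi hi' => by
      have := hi.1; have := hi'.2; omega))
    (im_disj_right S hx (fun i hi => by have := hi.2; omega) hD₁).symm
  have p5 := p1.jump (mk_mul_mem (S.mem _ (by omega)) hx) e₂ p4
    (im_disj_right S hx (fun i hi => by have := hi.2; omega) hD₂)
    (Set.disjoint_union_right.2 ⟨im_disj S x (fun i hi => by have := hi.2; omega) (fun i hi => hi.2)
        (fun i hi hi' => by have := hi.2; have := hi'.1; omega),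
      Set.disjoint_union_right.2 ⟨im_disj_right S hx (fun i hi => by have := hi.2; omega) hD₁,
        im_disj S x (fun i hi => by have := hi.2; omega) (fun i hi => by have := hi.2; omega)
          (fun i hi hi' => by have := hi.2; have := hi'.1; omega)⟩⟩)
    (Set.disjoint_union_right.2 ⟨(im_disj_right S hx (fun i hi => hi.2) hD₂).symm,
      Set.disjoint_union_right.2 ⟨hd.symm, (im_disj_right S hx (fun i hi => by have := hi.2; omega) hD₂).symm⟩⟩)
  rw [S.zero, mul_one] at p5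
  refine p5.congr ?_
  rw [← hx, ← im_full S x]
  have h3 : Set.Icc 0 E = Set.Icc 0 t ∪ (Set.Icc (u + 1) E ∪ Set.Icc (t + 1) u) := by
    ext k; simp only [Set.mem_Icc, Set.mem_union]; omega
  rw [h3]
  simp only [im, Set.image_union]
  ext g
  simp only [Set.mem_union]
  tauto

/-- The pattern `0 .. s`, `s + 1 .. t`, `t + 1 .. E`. -/
theorem patC [N.Normal] (S : Seq A N E v) {q : G ⧸ N} {D₁ D₂ : Set G} {n₁ n₂ : G}
    (e₁ : Exc A N q D₁ n₁) (e₂ : Exc A N q D₂ n₂) (hD₁ : ∀ g ∈ D₁, (g : G ⧸ N) ≠ q)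
    (hD₂ : ∀ g ∈ D₂, (g : G ⧸ N) ≠ q) (hd : Disjoint D₁ D₂) (s t : ℕ) (hst : s < t) (htE : t < E)
    (h1 : v s * n₁ = v (s + 1)) (h2 : v t * n₂ = v (t + 1)) (x : G) (hx : (x : G ⧸ N) = q) :
    Pt A ({g : G | (g : G ⧸ N) = q} ∪ (D₁ ∪ D₂)) x (x * v E) := by
  have p1 := seg_up S x 0 s (by omega) (by omega)
  have p2 := seg_up S x (s + 1) t (by omega) (by omega)
  have p3 := seg_up S x (t + 1) E (by omega) le_rfl
  rw [← h2, ← mul_assoc] at p3
  rw [← h1, ← mul_assoc] at p2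
  have p4 := p2.jump (mk_mul_mem (S.mem _ (by omega)) hx) e₂ p3
    (im_disj_right S hx (fun i hi => by have := hi.2; omega) hD₂)
    (im_disj S x (fun i hi => by have := hi.2; omega) (fun i hi => hi.2) (fun i hi hi' => by
      have := hi.2; have := hi'.1; omega))
    (im_disj_right S hx (fun i hi => hi.2) hD₂).symm
  have p5 := p1.jump (mk_mul_mem (S.mem _ (by omega)) hx) e₁ p4
    (im_disj_right S hx (fun i hi => by have := hi.2; omega) hD₁)
    (Set.disjoint_union_right.2 ⟨im_disj S x (fun i hi => by have := hi.2; omega)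
        (fun i hi => by have := hi.2; omega) (fun i hi hi' => by have := hi.2; have := hi'.1; omega),
      Set.disjoint_union_right.2 ⟨im_disj_right S hx (fun i hi => by have := hi.2; omega) hD₂,
        im_disj S x (fun i hi => by have := hi.2; omega) (fun i hi => hi.2)
          (fun i hi hi' => by have := hi.2; have := hi'.1; omega)⟩⟩)
    (Set.disjoint_union_right.2 ⟨(im_disj_right S hx (fun i hi => by have := hi.2; omega) hD₁).symm,
      Set.disjoint_union_right.2 ⟨hd, (im_disj_right S hx (fun i hi => hi.2) hD₁).symm⟩⟩)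
  rw [S.zero, mul_one] at p5
  refine p5.congr ?_
  rw [← hx, ← im_full S x]
  have h3 : Set.Icc 0 E = Set.Icc 0 s ∪ (Set.Icc (s + 1) t ∪ Set.Icc (t + 1) E) := by
    ext k; simp only [Set.mem_Icc, Set.mem_union]; omega
  rw [h3]
  simp only [im, Set.image_union]
  ext g
  simp only [Set.mem_union]
  tauto

theorem ne_one_of_pos (S : Seq A N E v) {i : ℕ} (hi : i ≤ E) (h0 : 0 < i) : v i ≠ 1 := fun h => by
  have := S.inj i hi 0 (by omega) (by rw [h, S.zero])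
  omega

/-- Two children, one of the sequence and its reverse. -/
theorem two_aux [N.Normal] (hsym : ∀ x ∈ A, x⁻¹ ∈ A) (S : Seq A N E v) {q : G ⧸ N} {D₁ D₂ : Set G} {n₁ n₂ : G}
    (e₁ : Exc A N q D₁ n₁) (e₂ : Exc A N q D₂ n₂) (hD₁ : ∀ g ∈ D₁, (g : G ⧸ N) ≠ q)
    (hD₂ : ∀ g ∈ D₂, (g : G ⧸ N) ≠ q) (hd : Disjoint D₁ D₂) (hn₁ : n₁ ∈ N) (hn₁' : n₁ ≠ 1) (hn₂ : n₂ ∈ N)
    (hn₂' : n₂ ≠ 1) :
    (∃ n ∈ N, n ≠ 1 ∧ ∀ x : G, (x : G ⧸ N) = q → Pt A ({g : G | (g : G ⧸ N) = q} ∪ (D₁ ∪ D₂)) x (x * n)) ∨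
      (n₁ = n₂ ∧ n₁ = n₁⁻¹ ∧ 0 < E ∧ v (E - 1) * n₁ = v E) := by
  by_contra hcon
  rw [not_or] at hcon
  obtain ⟨hno', hcon⟩ := hcon
  have hno : ∀ n ∈ N, n ≠ 1 →
      (∀ x : G, (x : G ⧸ N) = q → Pt A ({g : G | (g : G ⧸ N) = q} ∪ (D₁ ∪ D₂)) x (x * n)) → False :=
    fun n hn hn1 h => hno' ⟨n, hn, hn1, h⟩
  -- the step for a pair of jumps
  have step : ∀ (D D' : Set G) (n n' : G), Exc A N q D n → Exc A N q D' n' → (∀ g ∈ D, (g : G ⧸ N) ≠ q) →
      (∀ g ∈ D', (g : G ⧸ N) ≠ q) → Disjoint D D' → D ∪ D' = D₁ ∪ D₂ → n ∈ N → n ≠ 1 → n' ∈ N → ∀ t < E,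
      v t * n' = v E → v t * n = v (t + 1) := by
    intro D D' n n' e e' hD hD' hdd hu hn hn1 hn' t ht h
    obtain ⟨u, hu1, hu2⟩ := S.sur (v (t + 1) * n⁻¹) (N.mul_mem (S.mem _ (by omega)) (N.inv_mem hn))
    have hu3 : v u * n = v (t + 1) := by rw [hu2, inv_mul_cancel_right]
    have hu4 : u ≠ t + 1 := by
      rintro rfl
      exact hn1 (by simpa using hu3)
    rcases lt_trichotomy u t with h1 | h1 | h1
    · exfalso
      refine hno (v (u + 1)) (S.mem _ (by omega)) (ne_one_of_pos S (by omega) (by omega)) ?_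
      intro x hx
      rw [← hu]
      exact patA hsym S e (e'.inv hsym hn') hD hD' hdd u t h1 ht hu3 (by rw [← h, mul_inv_cancel_right]) x hx
    · rw [← h1]; rw [hu3, h1]
    · exfalso
      obtain ⟨w, rfl⟩ : ∃ w, u = w + 1 := ⟨u - 1, by omega⟩
      refine hno (v w) (S.mem _ (by omega)) (ne_one_of_pos S (by omega) (by omega)) ?_
      intro x hx
      rw [← hu]
      exact patB hsym S e e' hD hD' hdd w t (by omega) hu1 hu3 h x hx
  have hpos : ∀ n ∈ N, n ≠ 1 → ∃ t < E, v t * n = v E := by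
    intro n hn hn1
    obtain ⟨t, ht, h⟩ := S.sur (v E * n⁻¹) (N.mul_mem (S.mem _ le_rfl) (N.inv_mem hn))
    have h' : v t * n = v E := by rw [h, inv_mul_cancel_right]
    refine ⟨t, lt_of_le_of_ne ht ?_, h'⟩
    rintro rfl
    exact hn1 (by simpa using h')
  obtain ⟨t₁, ht₁, h₁⟩ := hpos n₁ hn₁ hn₁'
  obtain ⟨t₂, ht₂, h₂⟩ := hpos n₂ hn₂ hn₂'
  have a1 := step D₁ D₂ n₁ n₂ e₁ e₂ hD₁ hD₂ hd rfl hn₁ hn₁' hn₂ t₂ ht₂ h₂
  have a1' := step D₁ D₂ n₁⁻¹ n₂ (e₁.inv hsym hn₁) e₂ hD₁ hD₂ hd rfl (N.inv_mem hn₁) (inv_ne_one.2 hn₁') hn₂ t₂ ht₂ h₂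
  have a2 := step D₂ D₁ n₂ n₁ e₂ e₁ hD₂ hD₁ hd.symm (Set.union_comm _ _) hn₂ hn₂' hn₁ t₁ ht₁ h₁
  have i1 : n₁ = n₁⁻¹ := mul_left_cancel (a1.trans a1'.symm)
  rcases lt_trichotomy t₁ t₂ with h | h | h
  · refine hno (v E) (S.mem _ le_rfl) (ne_one_of_pos S le_rfl (by omega)) ?_
    intro x hx
    rw [Set.union_comm D₁ D₂]
    exact patC S e₂ e₁ hD₂ hD₁ hd.symm t₁ t₂ h ht₂ a2 a1 x hx
  · subst h
    have i2 : n₁ = n₂ := mul_left_cancel (a1.trans a2.symm)
    have h3 := S.inj (t₁ + 1) (by omega) E le_rfl (by rw [← a1, h₁])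
    exact hcon ⟨i2, i1, by omega, by rw [← h3]; simpa using a1⟩
  · refine hno (v E) (S.mem _ le_rfl) (ne_one_of_pos S le_rfl (by omega)) ?_
    intro x hx
    exact patC S e₁ e₂ hD₁ hD₂ hd t₂ t₁ h ht₁ a1 a2 x hx

/-- Two children. -/
theorem two_step [N.Normal] (hsym : ∀ x ∈ A, x⁻¹ ∈ A) (S : Seq A N E v) (hE : 2 ≤ E) {q : G ⧸ N} {D₁ D₂ : Set G}
    {n₁ n₂ : G} (e₁ : Exc A N q D₁ n₁) (e₂ : Exc A N q D₂ n₂) (hD₁ : ∀ g ∈ D₁, (g : G ⧸ N) ≠ q)
    (hD₂ : ∀ g ∈ D₂, (g : G ⧸ N) ≠ q) (hd : Disjoint D₁ D₂) (hn₁ : n₁ ∈ N) (hn₁' : n₁ ≠ 1) (hn₂ : n₂ ∈ N)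
    (hn₂' : n₂ ≠ 1) :
    ∃ n ∈ N, n ≠ 1 ∧ ∀ x : G, (x : G ⧸ N) = q → Pt A ({g : G | (g : G ⧸ N) = q} ∪ (D₁ ∪ D₂)) x (x * n) := by
  rcases two_aux hsym S e₁ e₂ hD₁ hD₂ hd hn₁ hn₁' hn₂ hn₂' with h | ⟨h12, hi, -, h1⟩
  · exact h
  rcases two_aux hsym (S.rev hsym) e₁ e₂ hD₁ hD₂ hd hn₁ hn₁' hn₂ hn₂' with h | ⟨-, -, -, h2⟩
  · exact h
  have h3 : v 1 * n₁ = v 0 := by
    have h4 : (v E)⁻¹ * v (E - (E - 1)) * n₁ = (v E)⁻¹ * v (E - E) := h2
    rw [mul_assoc] at h4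
    have h5 := mul_left_cancel h4
    rwa [Nat.sub_self, show E - (E - 1) = 1 by omega] at h5
  have h4 : v 0 * n₁ = v (0 + 1) := by
    rw [zero_add, ← h3, mul_assoc]
    nth_rw 2 [hi]
    rw [mul_inv_cancel, mul_one]
  refine ⟨v E, S.mem _ le_rfl, ne_one_of_pos S le_rfl (by omega), fun x hx => ?_⟩
  exact patC S e₁ e₂ hD₁ hD₂ hd 0 (E - 1) (by omega) (by omega) h4
    (by rw [← h12, h1, Nat.sub_add_cancel (by omega)]) x hx

/-- One child. -/
theorem one_step [N.Normal] (hsym : ∀ x ∈ A, x⁻¹ ∈ A) (S : Seq A N E v) {q : G ⧸ N} {D₁ : Set G}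
    {n₁ : G} (e₁ : Exc A N q D₁ n₁) (hD₁ : ∀ g ∈ D₁, (g : G ⧸ N) ≠ q) (hn₁ : n₁ ∈ N) (hn₁' : n₁ ≠ 1) :
    ∃ n ∈ N, n ≠ 1 ∧ ∀ x : G, (x : G ⧸ N) = q → Pt A ({g : G | (g : G ⧸ N) = q} ∪ D₁) x (x * n) := by
  obtain ⟨t, ht, h⟩ := S.sur (v E * n₁⁻¹) (N.mul_mem (S.mem _ le_rfl) (N.inv_mem hn₁))
  have h' : v t * n₁ = v E := by rw [h, inv_mul_cancel_right]
  have ht' : t < E := lt_of_le_of_ne ht (by rintro rfl; exact hn₁' (by simpa using h'))
  refine ⟨v (t + 1), S.mem _ (by omega), ne_one_of_pos S (by omega) (by omega), fun x hx => ?_⟩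
  have p1 := seg_up S x 0 t (by omega) (by omega)
  have p2 := seg_down hsym S x (t + 1) E (by omega) le_rfl
  rw [← h', ← mul_assoc] at p2
  have p3 := p1.jump (mk_mul_mem (S.mem _ (by omega)) hx) e₁ p2
    (im_disj_right S hx (fun i hi => by have := hi.2; omega) hD₁)
    (im_disj S x (fun i hi => by have := hi.2; omega) (fun i hi => hi.2) (fun i hi hi' => by
      have := hi.2; have := hi'.1; omega))
    (im_disj_right S hx (fun i hi => hi.2) hD₁).symm
  rw [S.zero, mul_one] at p3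
  refine p3.congr ?_
  rw [← hx, ← im_full S x]
  have h3 : Set.Icc 0 E = Set.Icc 0 t ∪ Set.Icc (t + 1) E := by
    ext k; simp only [Set.mem_Icc, Set.mem_union]; omega
  rw [h3]
  simp only [im, Set.image_union]
  ext g
  simp only [Set.mem_union]
  tauto

/-- The excursion to a child. -/
theorem exc_of [hN : N.Normal] (hsym : ∀ x ∈ A, x⁻¹ ∈ A) {q q' : G ⧸ N} {D : Set G} {n s : G} (hs : s ∈ A)
    (hq : q' = q * (s : G ⧸ N)) (hn : n ∈ N) (hn1 : n ≠ 1)
    (h : ∀ x : G, (x : G ⧸ N) = q' → Pt A D x (x * n)) : ∃ n' ∈ N, n' ≠ 1 ∧ Exc A N q D n' := by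
  refine ⟨s * n * s⁻¹, hN.conj_mem n hn s, fun h => hn1 (conj_eq_one_iff.1 h), fun y hy => ?_⟩
  refine ⟨y * s, y * s * n, by rwa [inv_mul_cancel_left], h _ ?_, ?_⟩
  · rw [QuotientGroup.mk_mul, hy, hq]
  · have : (y * s * n)⁻¹ * (y * (s * n * s⁻¹)) = s⁻¹ := by group
    rw [this]; exact hsym s hs

theorem tree_path [N.Normal] [DecidableEq (G ⧸ N)] (hsym : ∀ x ∈ A, x⁻¹ ∈ A) (S : Seq A N E v) (hE : 2 ≤ E)
    (Γ : SimpleGraph (G ⧸ N)) (hΓ : ∀ a b, Γ.Adj a b → ∃ s ∈ A, b = a * (s : G ⧸ N)) {U : Finset (G ⧸ N)}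
    {q : G ⧸ N} (h : RT Γ U q) :
    ∃ n ∈ N, n ≠ 1 ∧ ∀ x : G, (x : G ⧸ N) = q → Pt A {g : G | (g : G ⧸ N) ∈ U} x (x * n) := by
  induction h with
  | leaf q =>
    refine ⟨v E, S.mem _ le_rfl, ne_one_of_pos S le_rfl (by omega), fun x hx => ?_⟩
    have h := seg_up S x 0 E (by omega) le_rfl
    rw [S.zero, mul_one] at h
    refine h.congr ?_
    rw [im_full S x, hx]
    ext g
    simp
  | @one q u U _ hq hadj ih =>
    obtain ⟨n, hn, hn1, hp⟩ := ih
    obtain ⟨s, hs, hu⟩ := hΓ _ _ hadj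
    obtain ⟨n₁, h1, h1', e⟩ := exc_of hsym hs hu hn hn1 hp
    obtain ⟨m, hm, hm1, h⟩ := one_step hsym S e (fun g hg h => hq (h ▸ hg)) h1 h1'
    refine ⟨m, hm, hm1, fun x hx => (h x hx).congr ?_⟩
    ext g
    simp
  | @two q u₁ u₂ U₁ U₂ _ _ hd hq₁ hq₂ hadj₁ hadj₂ ih₁ ih₂ =>
    obtain ⟨n, hn, hn1, hp⟩ := ih₁
    obtain ⟨n', hn', hn1', hp'⟩ := ih₂
    obtain ⟨s, hs, hu⟩ := hΓ _ _ hadj₁
    obtain ⟨s', hs', hu'⟩ := hΓ _ _ hadj₂
    obtain ⟨n₁, h1, h1', e₁⟩ := exc_of hsym hs hu hn hn1 hp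
    obtain ⟨n₂, h2, h2', e₂⟩ := exc_of hsym hs' hu' hn' hn1' hp'
    obtain ⟨m, hm, hm1, h⟩ := two_step hsym S hE e₁ e₂ (fun g hg h => hq₁ (h ▸ hg)) (fun g hg h => hq₂ (h ▸ hg))
      (by
        rw [Set.disjoint_left]
        intro g hg hg'
        exact Finset.disjoint_left.1 hd hg hg') h1 h1' h2 h2'
    refine ⟨m, hm, hm1, fun x hx => (h x hx).congr ?_⟩
    ext g
    simp

/-- From the rooted tree to the listing sequence. -/
theorem lst_of_tree [N.Normal] [DecidableEq (G ⧸ N)] (hsym : ∀ x ∈ A, x⁻¹ ∈ A) (S : Seq A N E v) (hE : 2 ≤ E)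
    (Γ : SimpleGraph (G ⧸ N)) (hΓ : ∀ a b, Γ.Adj a b → ∃ s ∈ A, b = a * (s : G ⧸ N)) {U : Finset (G ⧸ N)}
    {q : G ⧸ N} (h : RT Γ U q) (hU : ∀ q, q ∈ U) : Lst A := by
  obtain ⟨n, -, -, hp⟩ := tree_path hsym S hE Γ hΓ h
  obtain ⟨x, rfl⟩ := QuotientGroup.mk_surjective q
  refine ((hp x rfl).congr ?_).lst ⟨_, S.edge 0 (by omega)⟩
  ext g
  simp [hU]

/-- The listing sequence of `N` as a sequence. -/
theorem seq_of_lst [Finite G] (h : Lst {x : N | (x : G) ∈ A}) : ∃ v, Seq A N (Nat.card N - 1) v := by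
  obtain ⟨a, ha, hi⟩ := h
  have hc : 0 < Nat.card N := Nat.card_pos
  have hb : Function.Bijective (fun k : Fin (Nat.card N) => ((List.ofFn a).take (k + 1)).prod) :=
    hi.bijective_of_nat_card_le (by simp)
  refine ⟨fun i => (((((List.ofFn a).take 1).prod)⁻¹ * ((List.ofFn a).take (i + 1)).prod : N) : G), ?_, ?_, ?_, ?_, ?_⟩
  · intro i _
    exact SetLike.coe_mem _
  · intro i hi' j hj' hij
    have h1 := mul_left_cancel (Subtype.ext hij)
    have := @hi ⟨i, by omega⟩ ⟨j, by omega⟩ h1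
    exact congrArg Fin.val this
  · intro g hg
    obtain ⟨k, hk⟩ := hb.2 (((List.ofFn a).take 1).prod * ⟨g, hg⟩)
    refine ⟨k, by omega, ?_⟩
    have hk' : ((List.ofFn a).take (k + 1)).prod = ((List.ofFn a).take 1).prod * ⟨g, hg⟩ := hk
    show (((((List.ofFn a).take 1).prod)⁻¹ * ((List.ofFn a).take (k + 1)).prod : N) : G) = g
    rw [hk', inv_mul_cancel_left]
  · intro i hi'
    have hk : i + 1 < (List.ofFn a).length := by rw [List.length_ofFn]; omega
    have h1 : ((List.ofFn a).take (i + 1 + 1)).prod = ((List.ofFn a).take (i + 1)).prod * a ⟨i + 1, by omega⟩ := by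
      rw [List.prod_take_succ _ _ hk]
      simp
    show ((((((List.ofFn a).take 1).prod)⁻¹ * ((List.ofFn a).take (i + 1)).prod : N) : G))⁻¹ *
      (((((List.ofFn a).take 1).prod)⁻¹ * ((List.ofFn a).take (i + 1 + 1)).prod : N) : G) ∈ A
    rw [h1, ← mul_assoc, Subgroup.coe_mul _ _ (a _), inv_mul_cancel_left]
    exact ha _
  · show (((((List.ofFn a).take 1).prod)⁻¹ * ((List.ofFn a).take (0 + 1)).prod : N) : G) = 1
    rw [zero_add, inv_mul_cancel]
    rfl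

end Pool.Agent.Lib.MP_688fd0_co.NC
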