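import Pool.Agent.Lib.MP_688fd0_co.NC.Iface
import Mathlib.Combinatorics.SimpleGraph.Acyclic
import Mathlib.Combinatorics.SimpleGraph.DegreeSum

/-!
# ROOT: a tree with maximal degree three as a rooted tree (helper73)
-/

set_option autoImplicit false

namespace Pool.Agent.Lib.MP_688fd0_co.NC

open SimpleGraph

universe u

namespace Root

variable {V : Type u} {F Γ : SimpleGraph V}

theorem supp {S : Finset V} {a b : V} (p : (del F S).Walk a b) :
    a ∉ S → ∀ x ∈ p.support, x ∉ S := by
  induction p with
  | nil =>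
    intro ha x hx
    rw [Walk.support_nil, List.mem_singleton] at hx
    rw [hx]
    exact ha
  | cons h p ih =>
    intro ha x hx
    rw [Walk.support_cons, List.mem_cons] at hx
    rcases hx with rfl | hx
    · exact ha
    · exact ih h.2.2 x hx

theorem del_le (S : Finset V) : del F S ≤ F := fun _ _ h => h.1

variable [DecidableEq V]

theorem push {B : Finset V} {v u a : V} (p : (del F B).Walk u a) :
    v ∉ p.support → (del F (insert v B)).Reachable u a := by
  induction p with
  | nil =>
    intro _
    exact Reachable.refl _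
  | cons h p ih =>
    intro hv
    rw [Walk.support_cons, List.mem_cons, not_or] at hv
    have h1 := ih hv.2
    refine Reachable.trans (Adj.reachable ⟨h.1, ?_, ?_⟩) h1
    · rw [Finset.mem_insert, not_or]
      exact ⟨Ne.symm hv.1, h.2.1⟩
    · rw [Finset.mem_insert, not_or]
      refine ⟨?_, h.2.2⟩
      rintro rfl
      exact hv.2 p.start_mem_support

theorem del_anti (v : V) (B : Finset V) : del F (insert v B) ≤ del F B := fun _ _ h =>
  ⟨h.1, fun h1 => h.2.1 (Finset.mem_insert_of_mem h1),
    fun h1 => h.2.2 (Finset.mem_insert_of_mem h1)⟩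

theorem pull {B : Finset V} {v u a : V} (h : (del F (insert v B)).Reachable u a) :
    (del F B).Reachable u a :=
  h.mono (del_anti v B)

theorem comp_cases {B : Finset V} {v a : V} (h : (del F B).Reachable v a) (hne : a ≠ v) :
    ∃ u, F.Adj v u ∧ u ∉ B ∧ (del F (insert v B)).Reachable u a := by
  obtain ⟨p, hp⟩ := h.exists_isPath
  cases p with
  | nil => exact absurd rfl hne
  | cons h' q =>
    rw [Walk.cons_isPath_iff] at hp
    exact ⟨_, h'.1, h'.2.2, push q hp.2⟩

theorem not_reach {B : Finset V} {v u : V} (hne : u ≠ v) (hu : u ∉ B) :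
    ¬ (del F (insert v B)).Reachable u v := by
  rintro ⟨p⟩
  refine supp p ?_ v p.end_mem_support (Finset.mem_insert_self _ _)
  rw [Finset.mem_insert, not_or]
  exact ⟨hne, hu⟩

/-- Different children of `v` are in different components. -/
theorem disj (hF : F.IsAcyclic) {B : Finset V} {v u₁ u₂ : V} (h1 : F.Adj v u₁) (h2 : F.Adj v u₂)
    (hne : u₁ ≠ u₂) (hu : u₁ ∉ B) : ¬ (del F (insert v B)).Reachable u₁ u₂ := by
  intro h
  obtain ⟨p, hp⟩ := h.exists_isPath
  have h3 : v ∉ p.support := by
    intro h4
    refine supp p ?_ v h4 (Finset.mem_insert_self _ _)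
    rw [Finset.mem_insert, not_or]
    exact ⟨h1.ne', hu⟩
  have hp' : (p.mapLe (del_le _)).IsPath := (Walk.isPath_mapLe _).2 hp
  have hv : ¬ v ∈ (p.mapLe (del_le (F := F) (insert v B))).support := by
    rw [Walk.support_mapLe_eq_support]
    exact h3
  let q : F.Walk u₁ u₂ := Walk.cons h1.symm (Walk.cons h2 Walk.nil)
  have hq : q.IsPath := by
    show (Walk.cons h1.symm (Walk.cons h2 Walk.nil)).IsPath
    simp [Walk.cons_isPath_iff, h1.ne', h2.ne, hne]
  have h5 : (⟨_, hp'⟩ : F.Path u₁ u₂) = ⟨q, hq⟩ := (hF.subsingleton_path u₁ u₂).elim _ _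
  have h6 : p.mapLe (del_le (F := F) (insert v B)) = q := congrArg Subtype.val h5
  rw [h6] at hv
  apply hv
  show v ∈ (Walk.cons h1.symm (Walk.cons h2 Walk.nil)).support
  simp

open Classical in
/-- The component of `v` after the removal of `B`. -/
noncomputable def C (F : SimpleGraph V) [Fintype V] (B : Finset V) (v : V) : Finset V :=
  Finset.univ.filter fun a => (del F B).Reachable v a

variable [Fintype V]

theorem mem_C {B : Finset V} {v a : V} : a ∈ C F B v ↔ (del F B).Reachable v a := by
  classical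
  simp only [C, Finset.mem_filter, Finset.mem_univ, true_and]

theorem main (hΓ : F ≤ Γ) (hF : F.IsAcyclic) (hd : ∀ v, (F.neighborSet v).ncard ≤ 3) (n : ℕ) :
    ∀ (B : Finset V) (v : V), v ∉ B → (Finset.univ \ B).card = n →
      (F.neighborSet v \ (B : Set V)).ncard ≤ 2 → RT Γ (C F B v) v := by
  induction n using Nat.strong_induction_on with
  | _ n ih =>
  intro B v hv hn hN
  have hlt : (Finset.univ \ insert v B).card < n := by
    rw [← hn]
    refine Finset.card_lt_card ?_
    rw [Finset.ssubset_iff_of_subset]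
    · refine ⟨v, ?_, ?_⟩
      · rw [Finset.mem_sdiff]
        exact ⟨Finset.mem_univ _, hv⟩
      · rw [Finset.mem_sdiff]
        exact fun h => h.2 (Finset.mem_insert_self _ _)
    · exact Finset.sdiff_subset_sdiff (le_refl _) (Finset.subset_insert _ _)
  -- the children
  have hch : ∀ u, F.Adj v u → u ∉ B → RT Γ (C F (insert v B) u) u := by
    intro u h1 h2
    refine ih _ hlt (insert v B) u ?_ rfl ?_
    · rw [Finset.mem_insert, not_or]
      exact ⟨h1.ne', h2⟩
    · have h3 : F.neighborSet u \ ((insert v B : Finset V) : Set V) ⊆ F.neighborSet u \ {v} := by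
        rintro x ⟨h3, h4⟩
        refine ⟨h3, fun h5 => h4 ?_⟩
        rw [Set.mem_singleton_iff.1 h5]
        exact Finset.mem_coe.2 (Finset.mem_insert_self _ _)
      have h4 := Set.ncard_le_ncard h3 (Set.toFinite _)
      have h5 : v ∈ F.neighborSet u := h1.symm
      have h6 := Set.ncard_sdiff_singleton_add_one h5 (Set.toFinite _)
      have h7 := hd u
      omega
  have hnm : ∀ u, F.Adj v u → u ∉ B → v ∉ C F (insert v B) u := by
    intro u h1 h2 h3
    exact not_reach h1.ne' h2 (mem_C.1 h3)
  have hdown : ∀ u, F.Adj v u → u ∉ B → ∀ a ∈ C F (insert v B) u, a ∈ C F B v := by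
    intro u h1 h2 a h3
    rw [mem_C] at h3 ⊢
    exact Reachable.trans (Adj.reachable ⟨h1, hv, h2⟩) (pull h3)
  have hvv : v ∈ C F B v := mem_C.2 (Reachable.refl _)
  have hcas : ∀ a ∈ C F B v, a ≠ v → ∃ u, u ∈ F.neighborSet v \ (B : Set V) ∧
      a ∈ C F (insert v B) u := by
    intro a ha hne
    obtain ⟨u, h1, h2, h3⟩ := comp_cases (mem_C.1 ha) hne
    exact ⟨u, ⟨h1, fun h => h2 (Finset.mem_coe.1 h)⟩, mem_C.2 h3⟩
  have h012 : (F.neighborSet v \ (B : Set V)).ncard = 0 ∨
      (F.neighborSet v \ (B : Set V)).ncard = 1 ∨ (F.neighborSet v \ (B : Set V)).ncard = 2 := by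
    omega
  rcases h012 with h0 | h0 | h0
  · rw [Set.ncard_eq_zero (Set.toFinite _)] at h0
    have h1 : C F B v = {v} := by
      ext a
      rw [Finset.mem_singleton]
      constructor
      · intro ha
        by_contra hne
        obtain ⟨u, hu, -⟩ := hcas a ha hne
        rw [h0] at hu
        exact hu
      · rintro rfl
        exact hvv
    rw [h1]
    exact RT.leaf v
  · rw [Set.ncard_eq_one] at h0
    obtain ⟨u, hu⟩ := h0
    have hu' : u ∈ F.neighborSet v \ (B : Set V) := by rw [hu]; exact rfl
    have hu2 : u ∉ B := fun h => hu'.2 (Finset.mem_coe.2 h)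
    have h1 : C F B v = insert v (C F (insert v B) u) := by
      ext a
      rw [Finset.mem_insert]
      constructor
      · intro ha
        by_cases hne : a = v
        · exact Or.inl hne
        · obtain ⟨u', hu', h2⟩ := hcas a ha hne
          rw [hu] at hu'
          rw [Set.mem_singleton_iff.1 hu'] at h2
          exact Or.inr h2
      · rintro (rfl | ha)
        · exact hvv
        · exact hdown u hu'.1 hu2 a ha
    rw [h1]
    exact RT.one (hch u hu'.1 hu2) (hnm u hu'.1 hu2) (hΓ hu'.1)
  · rw [Set.ncard_eq_two] at h0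
    obtain ⟨u₁, u₂, hne, hu⟩ := h0
    have hu1 : u₁ ∈ F.neighborSet v \ (B : Set V) := by rw [hu]; exact Or.inl rfl
    have hu2 : u₂ ∈ F.neighborSet v \ (B : Set V) := by rw [hu]; exact Or.inr rfl
    have hu1' : u₁ ∉ B := fun h => hu1.2 (Finset.mem_coe.2 h)
    have hu2' : u₂ ∉ B := fun h => hu2.2 (Finset.mem_coe.2 h)
    have h1 : C F B v = insert v (C F (insert v B) u₁ ∪ C F (insert v B) u₂) := by
      ext a
      rw [Finset.mem_insert, Finset.mem_union]
      constructor
      · intro ha
        by_cases hne : a = v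
        · exact Or.inl hne
        · obtain ⟨u', hu', h2⟩ := hcas a ha hne
          rw [hu] at hu'
          rcases hu' with rfl | hu'
          · exact Or.inr (Or.inl h2)
          · rw [Set.mem_singleton_iff.1 hu'] at h2
            exact Or.inr (Or.inr h2)
      · rintro (rfl | ha | ha)
        · exact hvv
        · exact hdown u₁ hu1.1 hu1' a ha
        · exact hdown u₂ hu2.1 hu2' a ha
    rw [h1]
    refine RT.two (hch u₁ hu1.1 hu1') (hch u₂ hu2.1 hu2') ?_ (hnm u₁ hu1.1 hu1')
      (hnm u₂ hu2.1 hu2') (hΓ hu1.1) (hΓ hu2.1)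
    rw [Finset.disjoint_left]
    intro a h2 h3
    rw [mem_C] at h2 h3
    exact disj hF hu1.1 hu2.1 hne hu1' (h2.trans h3.symm)

/-- A finite tree has a vertex of degree at most two. -/
theorem exists_small (hF : F.IsTree) : ∃ v, (F.neighborSet v).ncard ≤ 2 := by
  classical
  by_contra h
  push Not at h
  have h1 := F.sum_degrees_eq_twice_card_edges
  have h2 := hF.card_edgeFinset
  have h3 : ∀ v ∈ (Finset.univ : Finset V), 3 ≤ F.degree v := by
    intro v _
    have h4 := h v
    rw [Set.ncard_eq_toFinset_card', Set.toFinset_card, F.card_neighborSet_eq_degree] at h4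
    exact h4
  have h4 := Finset.card_nsmul_le_sum _ _ _ h3
  rw [Finset.card_univ, smul_eq_mul, h1] at h4
  omega

end Root

open Root in
/-- ROOT. -/
theorem root : RootS.{u} := by
  intro V _ _ Γ F hΓ hF hd
  obtain ⟨v, hv⟩ := exists_small hF
  refine ⟨v, ?_⟩
  have h1 := main hΓ hF.isAcyclic hd _ ∅ v (Finset.notMem_empty _) rfl (by
    rw [Finset.coe_empty, Set.sdiff_empty]
    exact hv)
  have h2 : C F ∅ v = Finset.univ := by
    ext a
    rw [mem_C]
    refine ⟨fun _ => Finset.mem_univ _, fun _ => ?_⟩
    exact (hF.connected.preconnected v a).mono fun x y h =>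
      ⟨h, Finset.notMem_empty _, Finset.notMem_empty _⟩
  rw [h2] at h1
  exact h1

end Pool.Agent.Lib.MP_688fd0_co.NC
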