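import Pool.Agent.Lib.MP_688fd0_co.NC.Iface

/-!
# Cayley graphs are 1-tough (helper84)
-/

set_option autoImplicit false

namespace Pool.Agent.Lib.MP_688fd0_co.NC

universe u

theorem tough (hE : EdgeS.{u}) : ToughS.{u} := by
  intro Q _ _ _ S h1 hinv hcl S0 hS0 ι f hf
  classical
  obtain ⟨P, hP⟩ : ∃ P : Finset (Q × Q), P = (S0ᶜ ×ˢ S).filter fun p => p.1 * p.2 ∈ S0 := ⟨_, rfl⟩
  obtain ⟨I, hI⟩ : ∃ I : Finset ι, I = S0ᶜ.image f := ⟨_, rfl⟩
  have hset : f '' {a | a ∉ S0} = (I : Set ι) := by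
    rw [hI]
    ext i
    simp
  rw [hset, Set.ncard_coe_finset]
  have hPc : P.card ≤ S0.card * S.card := by
    rw [← Finset.card_product]
    refine Finset.card_le_card_of_injOn (fun p => (p.1 * p.2, p.2)) ?_ ?_
    · intro p hp
      rw [hP] at hp
      have hp' := Finset.mem_filter.1 hp
      exact Finset.mem_product.2 ⟨hp'.2, (Finset.mem_product.1 hp'.1).2⟩
    · rintro ⟨a, s⟩ _ ⟨b, t⟩ _ h
      simp only [Prod.mk.injEq] at h
      obtain ⟨h2, rfl⟩ := h
      rw [mul_right_cancel h2]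
  have hfib : ∀ i ∈ I, S.card ≤ (P.filter fun p => f p.1 = i).card := by
    intro i hi
    rw [hI] at hi
    obtain ⟨a, ha, hai⟩ := Finset.mem_image.1 hi
    have hX := hE Q S h1 hinv hcl (S0ᶜ.filter fun x => f x = i)
      ⟨a, Finset.mem_filter.2 ⟨ha, hai⟩⟩ (by
        intro h
        obtain ⟨s, hs⟩ := hS0
        have h2 : s ∈ S0ᶜ.filter fun x => f x = i := by
          rw [h]
          exact Finset.mem_univ s
        exact (Finset.mem_compl.1 (Finset.mem_filter.1 h2).1) hs)
    refine hX.trans (Finset.card_le_card ?_)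
    rintro ⟨x, s⟩ hp
    obtain ⟨h2, h3⟩ := Finset.mem_filter.1 hp
    obtain ⟨h4, h5⟩ := Finset.mem_product.1 h2
    obtain ⟨h6, h7⟩ := Finset.mem_filter.1 h4
    simp only at h3 h4 h5 h6 h7
    have h8 : x * s ∈ S0 := by
      by_contra h9
      apply h3
      refine Finset.mem_filter.2 ⟨Finset.mem_compl.2 h9, ?_⟩
      rw [← hf x (x * s) (Finset.mem_compl.1 h6) h9 (by
        change x⁻¹ * (x * s) ∈ S
        rwa [inv_mul_cancel_left])]
      exact h7
    refine Finset.mem_filter.2 ⟨?_, h7⟩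
    rw [hP]
    exact Finset.mem_filter.2 ⟨Finset.mem_product.2 ⟨h6, h5⟩, h8⟩
  have hsum : P.card = ∑ i ∈ I, (P.filter fun p => f p.1 = i).card := by
    refine Finset.card_eq_sum_card_fiberwise ?_
    intro p hp
    rw [hP] at hp
    rw [hI]
    exact Finset.mem_coe.2 (Finset.mem_image_of_mem f
      (Finset.mem_product.1 (Finset.mem_filter.1 hp).1).1)
  have hle : I.card * S.card ≤ P.card := by
    rw [hsum, ← smul_eq_mul]
    exact Finset.card_nsmul_le_sum I _ _ hfib
  rcases Nat.eq_zero_or_pos S.card with h0 | h0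
  · have hS : S = ∅ := Finset.card_eq_zero.1 h0
    have hall : ∀ x : Q, x = 1 := by
      intro x
      have hx : x ∈ Subgroup.closure (S : Set Q) := by
        rw [hcl]
        exact Subgroup.mem_top x
      rw [hS, Finset.coe_empty, Subgroup.closure_empty] at hx
      exact Subgroup.mem_bot.1 hx
    obtain ⟨s, hs⟩ := hS0
    have hIe : I = ∅ := by
      rw [hI, Finset.image_eq_empty, Finset.compl_eq_empty_iff, Finset.eq_univ_iff_forall]
      intro x
      rwa [hall x, ← hall s]
    rw [hIe]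
    exact Nat.zero_le _
  · exact Nat.le_of_mul_le_mul_right (hle.trans hPc) h0

end Pool.Agent.Lib.MP_688fd0_co.NC
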