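import Pool.Agent.Lib.MP_688fd0_co.NC.Win
import Pool.Agent.Lib.MP_688fd0_co.NC.Edge
import Pool.Agent.Lib.MP_688fd0_co.NC.Tough
import Pool.Agent.Lib.MP_688fd0_co.NC.Root
import Pool.Agent.Lib.MP_688fd0_co.NC.Count
import Pool.Agent.Lib.MP_688fd0_co.NC.PathN

/-!
THEOREM N and THEOREM NC: the assembly.

THEOREM N: `G` finite, `A` symmetric and generating, `N` a normal subgroup of order at least three with a listing sequence
from `A ∩ N`. Then `A` has a listing sequence.
-/

set_option autoImplicit false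

namespace Pool.Agent.Lib.MP_688fd0_co.NC

open Pool.Agent.Lib.MP_688fd0_co.OSF

universe u

theorem cay_connected' {Q : Type u} [Group Q] [Fintype Q] (S : Finset Q) (h1 : (1 : Q) ∉ S) (hinv : ∀ s ∈ S, s⁻¹ ∈ S)
    (hgen : Subgroup.closure (S : Set Q) = ⊤) : (cay S h1 hinv).Connected := by
  have key : ∀ g ∈ Subgroup.closure (S : Set Q), ∀ x : Q, (cay S h1 hinv).Reachable x (x * g) := by
    intro g hg
    induction hg using Subgroup.closure_induction with
    | mem s hs =>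
      intro x
      refine SimpleGraph.Adj.reachable ?_
      show x⁻¹ * (x * s) ∈ S
      rwa [inv_mul_cancel_left]
    | one => intro x; rw [mul_one]
    | mul a b _ _ ha hb => intro x; rw [← mul_assoc]; exact (ha x).trans (hb _)
    | inv a _ ha =>
      intro x
      have := (ha (x * a⁻¹)).symm
      rwa [inv_mul_cancel_right] at this
  haveI : Nonempty Q := ⟨1⟩
  refine ⟨fun x y => ?_⟩
  have := key (x⁻¹ * y) (by rw [hgen]; trivial) x
  rwa [mul_inv_cancel_left] at this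

/-- TREE: the quotient by a normal subgroup has a spanning tree of generators with at most two children everywhere. -/
theorem exists_tree {G : Type u} [Group G] [Finite G] (A : Set G) (hsym : ∀ x ∈ A, x⁻¹ ∈ A)
    (hgen : Subgroup.closure A = ⊤) (N : Subgroup G) [N.Normal] [DecidableEq (G ⧸ N)] [Fintype (G ⧸ N)] :
    ∃ (Γ : SimpleGraph (G ⧸ N)) (v : G ⧸ N), (∀ a b, Γ.Adj a b → ∃ s ∈ A, b = a * (s : G ⧸ N)) ∧
      RT Γ Finset.univ v := by
  classical
  let π := QuotientGroup.mk' N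
  let S : Finset (G ⧸ N) := Finset.univ.filter fun q => q ≠ 1 ∧ ∃ s ∈ A, π s = q
  have hS : ∀ q, q ∈ S ↔ q ≠ 1 ∧ ∃ s ∈ A, π s = q := fun q => by simp [S]
  have h1 : (1 : G ⧸ N) ∉ S := fun h => ((hS 1).1 h).1 rfl
  have hinv : ∀ s ∈ S, s⁻¹ ∈ S := by
    intro q hq
    obtain ⟨h1, s, hs, rfl⟩ := (hS q).1 hq
    exact (hS _).2 ⟨inv_ne_one.2 h1, s⁻¹, hsym s hs, map_inv π s⟩
  have hSgen : Subgroup.closure (S : Set (G ⧸ N)) = ⊤ := by
    have h2 : Subgroup.closure (π '' A) = ⊤ := by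
      have h3 := congrArg (Subgroup.map π) hgen
      rwa [MonoidHom.map_closure, ← MonoidHom.range_eq_map,
        MonoidHom.range_eq_top.2 (QuotientGroup.mk'_surjective _)] at h3
    rw [eq_top_iff, ← h2, Subgroup.closure_le]
    rintro _ ⟨s, hs, rfl⟩
    by_cases h3 : π s = 1
    · rw [h3]; exact Subgroup.one_mem _
    · exact Subgroup.subset_closure ((hS _).2 ⟨h3, s, hs, rfl⟩)
  obtain ⟨F, hF, hT, hd⟩ := win count _ (cay S h1 hinv) (cay_connected' S h1 hinv hSgen) (tough edge _ S h1 hinv hSgen)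
  obtain ⟨v, hv⟩ := root _ (cay S h1 hinv) F hF hT hd
  refine ⟨cay S h1 hinv, v, fun a b hab => ?_, ?_⟩
  · obtain ⟨-, s, hs, h2⟩ := (hS _).1 (show a⁻¹ * b ∈ S from hab)
    refine ⟨s, hs, ?_⟩
    have h3 : π s = a⁻¹ * b := h2
    show b = a * π s
    rw [h3, mul_inv_cancel_left]
  · convert hv

/-- THEOREM N for a sequence. -/
theorem lst_of_seq {G : Type u} [Group G] [Finite G] (A : Set G) (hsym : ∀ x ∈ A, x⁻¹ ∈ A)
    (hgen : Subgroup.closure A = ⊤) (N : Subgroup G) [N.Normal] {E : ℕ} {v : ℕ → G} (S : Seq A N E v) (hE : 2 ≤ E) :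
    Lst A := by
  classical
  haveI : Fintype (G ⧸ N) := Fintype.ofFinite _
  obtain ⟨Γ, q, hΓ, hq⟩ := exists_tree A hsym hgen N
  exact lst_of_tree hsym S hE Γ hΓ hq fun q => Finset.mem_univ q

/-- THEOREM N. -/
theorem theoremN {G : Type u} [Group G] [Finite G] (A : Set G) (hsym : ∀ x ∈ A, x⁻¹ ∈ A)
    (hgen : Subgroup.closure A = ⊤) (N : Subgroup G) [N.Normal] (hN : 3 ≤ Nat.card N)
    (hl : Lst {x : N | (x : G) ∈ A}) : Lst A := by
  obtain ⟨v, S⟩ := seq_of_lst hl
  exact lst_of_seq A hsym hgen N S (by omega)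

/-- A cyclic subgroup has a sequence. -/
theorem seq_zpowers {G : Type u} [Group G] [Finite G] {A : Set G} {r : G} (hr : r ∈ A) :
    Seq A (Subgroup.zpowers r) (orderOf r - 1) (fun i => r ^ i) where
  mem i _ := Subgroup.npow_mem_zpowers r i
  inj i hi j hj h := by
    have := orderOf_pos r
    exact pow_injOn_Iio_orderOf (Set.mem_Iio.2 (by omega)) (Set.mem_Iio.2 (by omega)) h
  sur g hg := by
    classical
    obtain ⟨i, hi, rfl⟩ := Finset.mem_image.1 (mem_zpowers_iff_mem_range_orderOf.1 hg)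
    exact ⟨i, by have := Finset.mem_range.1 hi; omega, rfl⟩
  edge i _ := by
    show (r ^ i)⁻¹ * r ^ (i + 1) ∈ A
    rwa [pow_succ, inv_mul_cancel_left]
  zero := pow_zero r

/-- THEOREM NC. -/
theorem nc : NcS.{u} := by
  intro G _ _ A hsym hgen r hr hr2 hn
  have := hn
  have h0 := orderOf_pos r
  have h1 : orderOf r ≠ 1 := fun h => hr2 (by rw [orderOf_eq_one_iff.1 h, mul_one])
  have h2 : orderOf r ≠ 2 := fun h => hr2 (by rw [← pow_two, ← h, pow_orderOf_eq_one])
  exact lst_of_seq A hsym hgen (Subgroup.zpowers r) (seq_zpowers hr) (by omega)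

end Pool.Agent.Lib.MP_688fd0_co.NC
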