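import Pool.Agent.Lib.MP_688fd0_co.OSF.Iface
import Mathlib.Combinatorics.SimpleGraph.Acyclic
import Mathlib.Combinatorics.SimpleGraph.Finite

/-!
# Listing sequences when some element of `A` generates a normal subgroup of order at least three

THEOREM NC: `G` finite, `A` symmetric and generating, `r ∈ A` with `r * r ≠ 1` and `⟨r⟩` normal. Then `A` has a listing
sequence. Proof: a spanning tree of the Cayley graph of `G / ⟨r⟩` with maximal degree at most three (Win's theorem; Cayley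
graphs are 1-tough), then a path by induction along the rooted tree.
-/

set_option autoImplicit false

namespace Pool.Agent.Lib.MP_688fd0_co.NC

open Pool.Agent.Lib.MP_688fd0_co.OSF

universe u

/-- Delete all edges that meet `S`. -/
def del {V : Type u} (F : SimpleGraph V) (S : Finset V) : SimpleGraph V where
  Adj a b := F.Adj a b ∧ a ∉ S ∧ b ∉ S
  symm := ⟨fun _ _ h => ⟨h.1.symm, h.2.2, h.2.1⟩⟩
  loopless := ⟨fun a h => F.loopless.irrefl a h.1⟩

/-- The Cayley graph. -/
def cay {Q : Type u} [Group Q] (S : Finset Q) (h1 : (1 : Q) ∉ S) (hinv : ∀ s ∈ S, s⁻¹ ∈ S) : SimpleGraph Q where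
  Adj a b := a⁻¹ * b ∈ S
  symm := ⟨fun a b h => by have := hinv _ h; rwa [mul_inv_rev, inv_inv] at this⟩
  loopless := ⟨fun a h => h1 (by rwa [inv_mul_cancel] at h)⟩

/-- Removing a nonempty set `S` leaves at most `|S|` components. -/
def Tough {V : Type u} (Γ : SimpleGraph V) : Prop :=
  ∀ S : Finset V, S.Nonempty → ∀ (ι : Type u) (f : V → ι), (∀ a b, a ∉ S → b ∉ S → Γ.Adj a b → f a = f b) →
    (f '' {a | a ∉ S}).ncard ≤ S.card

/-- `U` is the vertex set of a rooted tree in `Γ` with root `v` in which every vertex has at most two children. -/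
inductive RT {V : Type u} [DecidableEq V] (Γ : SimpleGraph V) : Finset V → V → Prop
  | leaf (v : V) : RT Γ {v} v
  | one {v u : V} {U : Finset V} : RT Γ U u → v ∉ U → Γ.Adj v u → RT Γ (insert v U) v
  | two {v u₁ u₂ : V} {U₁ U₂ : Finset V} : RT Γ U₁ u₁ → RT Γ U₂ u₂ → Disjoint U₁ U₂ → v ∉ U₁ → v ∉ U₂ → Γ.Adj v u₁ →
      Γ.Adj v u₂ → RT Γ (insert v (U₁ ∪ U₂)) v

/-- EDGE: the edge boundary of a proper nonempty set in a Cayley graph is at least the degree. (Take `X` with the least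
boundary and, among these, the least number of elements; two translates are equal or disjoint; if `1 ∈ X` it is a
subgroup.) -/
def EdgeS : Prop :=
  ∀ (Q : Type u) [Group Q] [Fintype Q] [DecidableEq Q] (S : Finset Q), (1 : Q) ∉ S → (∀ s ∈ S, s⁻¹ ∈ S) →
    Subgroup.closure (S : Set Q) = ⊤ → ∀ X : Finset Q, X.Nonempty → X ≠ Finset.univ →
      S.card ≤ ((X ×ˢ S).filter fun p => p.1 * p.2 ∉ X).card

/-- TOUGH, from EDGE. -/
def ToughS : Prop :=
  ∀ (Q : Type u) [Group Q] [Fintype Q] [DecidableEq Q] (S : Finset Q) (h1 : (1 : Q) ∉ S) (hinv : ∀ s ∈ S, s⁻¹ ∈ S),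
    Subgroup.closure (S : Set Q) = ⊤ → Tough (cay S h1 hinv)

/-- COUNT: in a forest with at least two components remove a nonempty set `S` of vertices of degree three: at least
`|S| + 3` components are left. -/
def CountS : Prop :=
  ∀ (V : Type u) [Fintype V] (F : SimpleGraph V) (S : Finset V), F.IsAcyclic → S.Nonempty →
    (∀ s ∈ S, (F.neighborSet s).ncard = 3) → ¬ F.Preconnected →
      S.card + 3 ≤ ((del F S).connectedComponentMk '' {a | a ∉ S}).ncard

/-- WIN: a spanning tree with maximal degree at most three. -/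
def WinS : Prop :=
  ∀ (V : Type u) [Fintype V] (Γ : SimpleGraph V), Γ.Connected → Tough Γ →
    ∃ F : SimpleGraph V, F ≤ Γ ∧ F.IsTree ∧ ∀ v, (F.neighborSet v).ncard ≤ 3

/-- ROOT: the tree as a rooted tree. -/
def RootS : Prop :=
  ∀ (V : Type u) [Fintype V] [DecidableEq V] (Γ F : SimpleGraph V), F ≤ Γ → F.IsTree →
    (∀ v, (F.neighborSet v).ncard ≤ 3) → ∃ v, RT Γ Finset.univ v

/-- PATH: the listing sequence from a rooted tree of the quotient. -/
def PathS : Prop :=
  ∀ (G : Type u) [Group G] [Finite G] (A : Set G), (∀ x ∈ A, x⁻¹ ∈ A) → ∀ r ∈ A, r * r ≠ 1 →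
    ∀ (_ : (Subgroup.zpowers r).Normal) [DecidableEq (G ⧸ Subgroup.zpowers r)] (Γ : SimpleGraph (G ⧸ Subgroup.zpowers r))
      (U : Finset (G ⧸ Subgroup.zpowers r)) (v : G ⧸ Subgroup.zpowers r),
      (∀ a b, Γ.Adj a b → ∃ s ∈ A, b = a * (s : G ⧸ Subgroup.zpowers r)) → (∀ q, q ∈ U) → RT Γ U v → Lst A

/-- THEOREM NC. -/
def NcS : Prop :=
  ∀ (G : Type u) [Group G] [Finite G] (A : Set G), (∀ x ∈ A, x⁻¹ ∈ A) → Subgroup.closure A = ⊤ → ∀ r ∈ A,
    r * r ≠ 1 → (Subgroup.zpowers r).Normal → Lst A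

end Pool.Agent.Lib.MP_688fd0_co.NC
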