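import Pool.Agent.Lib.MP_688fd0_co.NC.Iface

/-!
WIN: a connected tough graph has a spanning tree with maximal degree at most three.
-/

set_option autoImplicit false

namespace Pool.Agent.Lib.MP_688fd0_co.NC

universe u

open SimpleGraph

variable {V : Type u}

theorem reach_of {H K : SimpleGraph V} (h : ∀ a b, H.Adj a b → K.Reachable a b) {a b : V} (hr : H.Reachable a b) :
    K.Reachable a b := by
  obtain ⟨p⟩ := hr
  induction p with
  | nil => exact Reachable.refl _
  | cons hab _ ih => exact (h _ _ hab).trans ih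

theorem del_adj {F : SimpleGraph V} {S : Finset V} {a b : V} : (del F S).Adj a b ↔ F.Adj a b ∧ a ∉ S ∧ b ∉ S := Iff.rfl

theorem del_empty (F : SimpleGraph V) : del F ∅ = F := by
  ext a b; simp [del_adj]

theorem del_anti {F : SimpleGraph V} {S T : Finset V} (h : S ⊆ T) : del F T ≤ del F S :=
  fun _ _ hab => ⟨hab.1, fun h1 => hab.2.1 (h h1), fun h1 => hab.2.2 (h h1)⟩

/-- Same edges at `S`, same components outside `S`. -/
def Same (S : Finset V) (F F' : SimpleGraph V) : Prop :=
  (∀ a ∈ S, ∀ b, F.Adj a b ↔ F'.Adj a b) ∧ ∀ a b, (del F S).Reachable a b ↔ (del F' S).Reachable a b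

theorem Same.refl (S : Finset V) (F : SimpleGraph V) : Same S F F := ⟨fun _ _ _ => Iff.rfl, fun _ _ => Iff.rfl⟩

theorem Same.symm {S : Finset V} {F F' : SimpleGraph V} (h : Same S F F') : Same S F' F :=
  ⟨fun a ha b => (h.1 a ha b).symm, fun a b => (h.2 a b).symm⟩

theorem Same.trans {S : Finset V} {F F' F'' : SimpleGraph V} (h : Same S F F') (h' : Same S F' F'') : Same S F F'' :=
  ⟨fun a ha b => (h.1 a ha b).trans (h'.1 a ha b), fun a b => (h.2 a b).trans (h'.2 a b)⟩

theorem Same.aux {S T : Finset V} (hST : S ⊆ T) {F F' : SimpleGraph V} (h : Same T F F') {a b : V}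
    (hr : (del F S).Reachable a b) : (del F' S).Reachable a b := by
  refine reach_of (fun a b hab => ?_) hr
  by_cases ha : a ∈ T
  · exact Adj.reachable ⟨(h.1 a ha b).1 hab.1, hab.2⟩
  by_cases hb : b ∈ T
  · exact Adj.reachable ⟨((h.1 b hb a).1 hab.1.symm).symm, hab.2⟩
  have h1 : (del F T).Reachable a b := Adj.reachable ⟨hab.1, ha, hb⟩
  exact ((h.2 a b).1 h1).mono (del_anti hST)

theorem Same.mono {S T : Finset V} (hST : S ⊆ T) {F F' : SimpleGraph V} (h : Same T F F') : Same S F F' :=
  ⟨fun a ha b => h.1 a (hST ha) b, fun _ _ => ⟨h.aux hST, h.symm.aux hST⟩⟩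

theorem card_cc {F F' : SimpleGraph V} (h : ∀ a b, F.Reachable a b ↔ F'.Reachable a b) :
    Nat.card F.ConnectedComponent = Nat.card F'.ConnectedComponent :=
  Nat.card_congr (Quot.congrRight h)

theorem card_cc_of_same {S : Finset V} {F F' : SimpleGraph V} (h : Same S F F') :
    Nat.card F.ConnectedComponent = Nat.card F'.ConnectedComponent := by
  refine card_cc fun a b => ?_
  have h1 := (h.mono (Finset.empty_subset S)).2 a b
  rwa [del_empty, del_empty] at h1

/-- Degrees at most three inside `Γ`. -/
def Gd (Γ F : SimpleGraph V) : Prop := F ≤ Γ ∧ ∀ v, (F.neighborSet v).ncard ≤ 3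

section fin

variable [Fintype V]

theorem card_lt {F F' : SimpleGraph V} (h : F ≤ F') {w x : V} (h1 : ¬ F.Reachable w x) (h2 : F'.Reachable w x) :
    Nat.card F'.ConnectedComponent < Nat.card F.ConnectedComponent := by
  classical
  have hs := ConnectedComponent.surjective_map_ofLE h
  refine lt_of_le_of_ne (Nat.card_le_card_of_surjective _ hs) fun he => ?_
  have hb := (Function.Surjective.bijective_of_nat_card_le hs he.ge).1
  have h3 : F.connectedComponentMk w = F.connectedComponentMk x := hb (ConnectedComponent.sound h2)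
  exact h1 (ConnectedComponent.exact h3)

/-- The hybrid of two graphs. -/
theorem hybrid {Γ F F₁ F₂ : SimpleGraph V} {T : Finset V} (g₁ : Gd Γ F₁) (g₂ : Gd Γ F₂) (s₁ : Same T F₁ F)
    (s₂ : Same T F₂ F) {w x : V} (hx : x ∉ T) (hwx : ¬ (del F T).Reachable w x) :
    ∃ H : SimpleGraph V, Gd Γ H ∧ Same T H F ∧ H.neighborSet w = F₁.neighborSet w ∧
      H.neighborSet x = F₂.neighborSet x := by
  classical
  set C : Set V := {y | (del F T).Reachable x y} with hC
  have hCT : ∀ y ∈ C, y ∉ T := by
    intro y hy hyT
    obtain ⟨p⟩ := (hy : (del F T).Reachable x y).symm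
    cases p with
    | nil => exact hx hyT
    | cons hab _ => exact hab.2.1 hyT
  have hxC : x ∈ C := Reachable.refl _
  have hwC : w ∉ C := fun h => hwx (Reachable.symm h)
  -- an edge of `F₁` or `F₂` that leaves `C` goes to `T`
  have leave : ∀ F' : SimpleGraph V, Same T F' F → ∀ a ∈ C, ∀ b, b ∉ C → F'.Adj a b → b ∈ T := by
    intro F' s' a ha b hb hab
    by_contra hbT
    exact hb (Reachable.trans ha ((s'.2 a b).1 (Adj.reachable ⟨hab, hCT a ha, hbT⟩)))
  have sw : ∀ a ∈ C, ∀ b, b ∉ C → (F₂.Adj a b ↔ F₁.Adj a b) := by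
    intro a ha b hb
    constructor
    · intro hab
      have hbT := leave F₂ s₂ a ha b hb hab
      exact ((s₁.1 b hbT a).2 ((s₂.1 b hbT a).1 hab.symm)).symm
    · intro hab
      have hbT := leave F₁ s₁ a ha b hb hab
      exact ((s₂.1 b hbT a).2 ((s₁.1 b hbT a).1 hab.symm)).symm
  let H : SimpleGraph V :=
    { Adj := fun a b => (a ∈ C ∧ F₂.Adj a b) ∨ (a ∉ C ∧ F₁.Adj a b)
      symm := ⟨by
        rintro a b (⟨ha, hab⟩ | ⟨ha, hab⟩)
        · by_cases hb : b ∈ C
          · exact Or.inl ⟨hb, hab.symm⟩
          · exact Or.inr ⟨hb, ((sw a ha b hb).1 hab).symm⟩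
        · by_cases hb : b ∈ C
          · exact Or.inl ⟨hb, (sw b hb a ha).2 hab.symm⟩
          · exact Or.inr ⟨hb, hab.symm⟩⟩
      loopless := ⟨by
        rintro a (⟨_, h⟩ | ⟨_, h⟩)
        · exact F₂.loopless.irrefl a h
        · exact F₁.loopless.irrefl a h⟩ }
  have hH : ∀ a b, H.Adj a b ↔ (a ∈ C ∧ F₂.Adj a b) ∨ (a ∉ C ∧ F₁.Adj a b) := fun _ _ => Iff.rfl
  have n₂ : ∀ a ∈ C, H.neighborSet a = F₂.neighborSet a := by
    intro a ha
    ext b
    rw [mem_neighborSet, mem_neighborSet, hH]
    exact ⟨fun h => h.elim (fun h => h.2) fun h => absurd ha h.1, fun h => Or.inl ⟨ha, h⟩⟩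
  have n₁ : ∀ a, a ∉ C → H.neighborSet a = F₁.neighborSet a := by
    intro a ha
    ext b
    rw [mem_neighborSet, mem_neighborSet, hH]
    exact ⟨fun h => h.elim (fun h => absurd h.1 ha) fun h => h.2, fun h => Or.inr ⟨ha, h⟩⟩
  refine ⟨H, ⟨?_, ?_⟩, ⟨?_, ?_⟩, n₁ w hwC, n₂ x hxC⟩
  · rintro a b (⟨_, h⟩ | ⟨_, h⟩)
    · exact g₂.1 h
    · exact g₁.1 h
  · intro v
    by_cases hv : v ∈ C
    · rw [n₂ v hv]; exact g₂.2 v
    · rw [n₁ v hv]; exact g₁.2 v
  · intro a ha b
    have haC : a ∉ C := fun h => hCT a h ha
    rw [hH, ← s₁.1 a ha b]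
    exact ⟨fun h => h.elim (fun h => absurd h.1 haC) fun h => h.2, fun h => Or.inr ⟨haC, h⟩⟩
  · intro a b
    constructor
    · refine reach_of fun a b hab => ?_
      rcases hab.1 with ⟨_, h⟩ | ⟨_, h⟩
      · exact (s₂.2 a b).1 (Adj.reachable ⟨h, hab.2⟩)
      · exact (s₁.2 a b).1 (Adj.reachable ⟨h, hab.2⟩)
    · refine reach_of fun a b hab => ?_
      have hr : (del F T).Reachable a b := Adj.reachable hab
      by_cases ha : a ∈ C
      · have h2 : (del F₂ T).Reachable a b := (s₂.2 a b).2 hr
        clear hab hr
        obtain ⟨p⟩ := h2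
        induction p with
        | nil => exact Reachable.refl _
        | @cons u v w huv q ih =>
          have hv : v ∈ C := Reachable.trans ha ((s₂.2 u v).1 (Adj.reachable huv))
          exact (Adj.reachable (G := del H T) ⟨Or.inl ⟨ha, huv.1⟩, huv.2⟩).trans (ih hv)
      · have h2 : (del F₁ T).Reachable a b := (s₁.2 a b).2 hr
        clear hab hr
        obtain ⟨p⟩ := h2
        induction p with
        | nil => exact Reachable.refl _
        | @cons u v w huv q ih =>
          have hv : v ∉ C := by
            intro hv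
            exact ha (Reachable.trans hv ((s₁.2 v u).1 (Adj.reachable huv.symm)))
          exact (Adj.reachable (G := del H T) ⟨Or.inr ⟨ha, huv.1⟩, huv.2⟩).trans (ih hv)

/-- Exchange: add the edge `w x` and remove an edge of a path from `w` to `x` at `s`. -/
theorem exchange {Γ H : SimpleGraph V} {T T' : Finset V} (gH : Gd Γ H) {w x : V} (hwx : Γ.Adj w x) (hw : w ∉ T')
    (hx : x ∉ T') (dw : (H.neighborSet w).ncard ≤ 2) (dx : (H.neighborSet x).ncard ≤ 2)
    (hr : (del H T).Reachable w x) (hn : ¬ (del H T').Reachable w x) (hTT : T ⊆ T') :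
    ∃ (K : SimpleGraph V) (s : V), s ∈ T' ∧ Gd Γ K ∧ Same T K H ∧
      (K.neighborSet s).ncard < (H.neighborSet s).ncard := by
  classical
  obtain ⟨p, hp⟩ := hr.exists_isPath
  -- a vertex of `T'` on the path
  obtain ⟨s, hs, hsT⟩ : ∃ s ∈ p.support, s ∈ T' := by
    by_contra hcon
    push Not at hcon
    apply hn
    have : ∀ {a b : V} (q : (del H T).Walk a b), (∀ s ∈ q.support, s ∉ T') → (del H T').Reachable a b := by
      intro a b q
      induction q with
      | nil => intro _; exact Reachable.refl _
      | @cons a c b hac q ih =>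
        intro hq
        have h1 : a ∉ T' := hq a (by simp)
        have h2 : c ∉ T' := hq c (by simp [Walk.support_cons])
        exact (Adj.reachable (G := del H T') ⟨hac.1, h1, h2⟩).trans (ih fun y hy => hq y (by
          rw [Walk.support_cons]; exact List.mem_cons_of_mem _ hy))
    exact this p hcon
  have hsw : s ≠ w := fun h => hw (h ▸ hsT)
  have hsx : s ≠ x := fun h => hx (h ▸ hsT)
  -- split the path at `s`
  have hsp := p.take_spec hs
  set p₁ := p.takeUntil s hs with hp₁
  set p₂ := p.dropUntil s hs with hp₂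
  clear_value p₁ p₂
  cases p₂ with
  | nil => exact absurd rfl hsx
  | @cons _ t _ hst q =>
    have hpath : (p₁.append (Walk.cons hst q)).IsPath := hsp ▸ hp
    have hnd : (p₁.support ++ q.support).Nodup := by
      have h1 := hpath.support_nodup
      rw [Walk.support_append] at h1
      simpa using h1
    have hdis : ∀ y ∈ p₁.support, y ∉ q.support := by
      intro y h1 h2
      exact (List.nodup_append.1 hnd).2.2 y h1 y h2 rfl
    have hsT0 : s ∉ T := hst.2.1
    have htT0 : t ∉ T := hst.2.2
    have hwT0 : w ∉ T := fun h => hw (hTT h)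
    have hxT0 : x ∉ T := fun h => hx (hTT h)
    have hwne : w ≠ x := hwx.ne
    let K : SimpleGraph V :=
      { Adj := fun a b => (H.Adj a b ∧ s(a, b) ≠ s(s, t)) ∨ s(a, b) = s(w, x)
        symm := ⟨by
          rintro a b (⟨h1, h2⟩ | h)
          · exact Or.inl ⟨h1.symm, by rwa [Sym2.eq_swap]⟩
          · exact Or.inr (by rwa [Sym2.eq_swap])⟩
        loopless := ⟨by
          rintro a (⟨h1, _⟩ | h)
          · exact H.loopless.irrefl a h1
          · rw [Sym2.eq_iff] at h
            rcases h with ⟨h1, h2⟩ | ⟨h1, h2⟩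
            · exact hwne (h1.symm.trans h2)
            · exact hwne (h2.symm.trans h1)⟩ }
    have hK : ∀ a b, K.Adj a b ↔ (H.Adj a b ∧ s(a, b) ≠ s(s, t)) ∨ s(a, b) = s(w, x) := fun _ _ => Iff.rfl
    -- walks in `H` that avoid the edge
    have r₁ : (del K T).Reachable w s := by
      have : ∀ {a b : V} (q' : (del H T).Walk a b), t ∉ q'.support → (del K T).Reachable a b := by
        intro a b q'
        induction q' with
        | nil => intro _; exact Reachable.refl _
        | @cons a c b hac q' ih =>
          intro h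
          rw [Walk.support_cons] at h
          have h1 : t ≠ a := fun e => h (by rw [e]; exact List.mem_cons_self)
          have h2 : t ∉ q'.support := fun e => h (List.mem_cons_of_mem _ e)
          have h3 : t ≠ c := fun e => h2 (by rw [e]; exact q'.start_mem_support)
          refine (Adj.reachable (G := del K T) ⟨Or.inl ⟨hac.1, ?_⟩, hac.2⟩).trans (ih h2)
          intro he
          rw [Sym2.eq_iff] at he
          rcases he with ⟨_, e2⟩ | ⟨e1, _⟩
          · exact h3 e2.symm
          · exact h1 e1.symm
      exact this p₁ fun h => hdis t h q.start_mem_support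
    have r₂ : (del K T).Reachable t x := by
      have : ∀ {a b : V} (q' : (del H T).Walk a b), s ∉ q'.support → (del K T).Reachable a b := by
        intro a b q'
        induction q' with
        | nil => intro _; exact Reachable.refl _
        | @cons a c b hac q' ih =>
          intro h
          rw [Walk.support_cons] at h
          have h1 : s ≠ a := fun e => h (by rw [e]; exact List.mem_cons_self)
          have h2 : s ∉ q'.support := fun e => h (List.mem_cons_of_mem _ e)
          have h3 : s ≠ c := fun e => h2 (by rw [e]; exact q'.start_mem_support)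
          refine (Adj.reachable (G := del K T) ⟨Or.inl ⟨hac.1, ?_⟩, hac.2⟩).trans (ih h2)
          intro he
          rw [Sym2.eq_iff] at he
          rcases he with ⟨e1, _⟩ | ⟨_, e2⟩
          · exact h1 e1.symm
          · exact h3 e2.symm
      exact this q fun h => hdis s p₁.end_mem_support h
    have r₃ : (del K T).Reachable w x := Adj.reachable ⟨Or.inr rfl, hwT0, hxT0⟩
    have r₄ : (del K T).Reachable s t := (r₁.symm.trans r₃).trans r₂.symm
    have nsub : ∀ v, v ≠ w → v ≠ x → K.neighborSet v ⊆ H.neighborSet v := by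
      intro v h1 h2 b hb
      rw [mem_neighborSet, hK] at hb
      rcases hb with ⟨h, _⟩ | h
      · exact h
      · rw [Sym2.eq_iff] at h
        rcases h with ⟨e, _⟩ | ⟨e, _⟩
        · exact absurd e h1
        · exact absurd e h2
    refine ⟨K, s, hsT, ⟨?_, ?_⟩, ⟨?_, ?_⟩, ?_⟩
    · intro a b hab
      rcases (hK a b).1 hab with ⟨h, _⟩ | h
      · exact gH.1 h
      · rw [Sym2.eq_iff] at h
        rcases h with ⟨rfl, rfl⟩ | ⟨rfl, rfl⟩
        · exact hwx
        · exact hwx.symm
    · intro v
      by_cases h1 : v = w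
      · subst h1
        have h2 : K.neighborSet v ⊆ insert x (H.neighborSet v) := by
          intro b hb
          rw [mem_neighborSet, hK] at hb
          rcases hb with ⟨h, _⟩ | h
          · exact Set.mem_insert_of_mem _ h
          · rw [Sym2.eq_iff] at h
            rcases h with ⟨_, e⟩ | ⟨e, _⟩
            · rw [e]; exact Set.mem_insert _ _
            · exact absurd e hwne
        exact (Set.ncard_le_ncard h2 (Set.toFinite _)).trans ((Set.ncard_insert_le _ _).trans (by omega))
      by_cases h2 : v = x
      · subst h2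
        have h2 : K.neighborSet v ⊆ insert w (H.neighborSet v) := by
          intro b hb
          rw [mem_neighborSet, hK] at hb
          rcases hb with ⟨h, _⟩ | h
          · exact Set.mem_insert_of_mem _ h
          · rw [Sym2.eq_iff] at h
            rcases h with ⟨e, _⟩ | ⟨_, e⟩
            · exact absurd e h1
            · rw [e]; exact Set.mem_insert _ _
        exact (Set.ncard_le_ncard h2 (Set.toFinite _)).trans ((Set.ncard_insert_le _ _).trans (by omega))
      · exact (Set.ncard_le_ncard (nsub v h1 h2) (Set.toFinite _)).trans (gH.2 v)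
    · intro a ha b
      rw [hK]
      constructor
      · rintro (⟨h, _⟩ | h)
        · exact h
        · rw [Sym2.eq_iff] at h
          rcases h with ⟨e, _⟩ | ⟨e, _⟩
          · exact absurd (e ▸ ha) hwT0
          · exact absurd (e ▸ ha) hxT0
      · intro h
        refine Or.inl ⟨h, fun he => ?_⟩
        rw [Sym2.eq_iff] at he
        rcases he with ⟨e, _⟩ | ⟨e, _⟩
        · exact hsT0 (e ▸ ha)
        · exact htT0 (e ▸ ha)
    · intro a b
      constructor
      · refine reach_of fun a b hab => ?_
        rcases (hK a b).1 hab.1 with ⟨h, _⟩ | h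
        · exact Adj.reachable ⟨h, hab.2⟩
        · rw [Sym2.eq_iff] at h
          rcases h with ⟨rfl, rfl⟩ | ⟨rfl, rfl⟩
          · exact hr
          · exact hr.symm
      · refine reach_of fun a b hab => ?_
        by_cases he : s(a, b) = s(s, t)
        · rw [Sym2.eq_iff] at he
          rcases he with ⟨rfl, rfl⟩ | ⟨rfl, rfl⟩
          · exact r₄
          · exact r₄.symm
        · exact Adj.reachable ⟨Or.inl ⟨hab.1, he⟩, hab.2⟩
    · refine Set.ncard_lt_ncard ⟨nsub s hsw hsx, fun h => ?_⟩ (Set.toFinite _)
      have h1 : t ∈ K.neighborSet s := h hst.1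
      rw [mem_neighborSet, hK] at h1
      rcases h1 with ⟨_, h⟩ | h
      · exact h rfl
      · rw [Sym2.eq_iff] at h
        rcases h with ⟨e, _⟩ | ⟨e, _⟩
        · exact hsw e
        · exact hsx e

end fin

theorem win (hC : CountS.{u}) : WinS.{u} := by
  intro V _ Γ hΓ hT
  classical
  -- a good forest with the least number of components
  obtain ⟨F₀, g₀, m₀⟩ : ∃ F : SimpleGraph V, Gd Γ F ∧
      ∀ F' : SimpleGraph V, Gd Γ F' → Nat.card F.ConnectedComponent ≤ Nat.card F'.ConnectedComponent := by
    have hne : {n : ℕ | ∃ F : SimpleGraph V, Gd Γ F ∧ Nat.card F.ConnectedComponent = n}.Nonempty :=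
      ⟨_, ⊥, ⟨bot_le, fun v => by
        have h1 : (⊥ : SimpleGraph V).neighborSet v = ∅ := by ext b; simp [mem_neighborSet]
        rw [h1, Set.ncard_empty]; omega⟩, rfl⟩
    obtain ⟨F, g, h⟩ := Nat.sInf_mem hne
    exact ⟨F, g, fun F' g' => h ▸ Nat.sInf_le ⟨F', g', rfl⟩⟩
  obtain ⟨F, hF, hac, hre⟩ := F₀.exists_isAcyclic_reachable_eq_le
  have g : Gd Γ F := ⟨hF.trans g₀.1, fun v =>
    (Set.ncard_le_ncard (fun b hb => hF hb) (Set.toFinite _)).trans (g₀.2 v)⟩
  have hm : ∀ F' : SimpleGraph V, Gd Γ F' → Nat.card F.ConnectedComponent ≤ Nat.card F'.ConnectedComponent := by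
    intro F' g'
    rw [card_cc (F := F) (F' := F₀) fun a b => by rw [hre]]
    exact m₀ F' g'
  refine ⟨F, g.1, ?_, g.2⟩
  haveI := hΓ.nonempty
  suffices hpre : F.Preconnected from ⟨⟨hpre⟩, hac⟩
  by_contra hnp
  -- the closure
  let Φ : Finset V → Finset V := fun S =>
    Finset.univ.filter fun w => ∀ F', Gd Γ F' → Same S F' F → (F'.neighborSet w).ncard = 3
  have hΦ : ∀ S w, w ∈ Φ S ↔ ∀ F', Gd Γ F' → Same S F' F → (F'.neighborSet w).ncard = 3 := by
    intro S w; simp [Φ]
  have mono : ∀ S T, S ⊆ T → Φ S ⊆ Φ T := by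
    intro S T hST w hw
    rw [hΦ] at hw ⊢
    exact fun F' g' s' => hw F' g' (s'.mono hST)
  let S : ℕ → Finset V := fun i => Φ^[i] ∅
  have hS0 : S 0 = ∅ := rfl
  have hS1 : ∀ i, S (i + 1) = Φ (S i) := fun i => Function.iterate_succ_apply' Φ i ∅
  have inc : ∀ i, S i ⊆ S (i + 1) := by
    intro i
    induction i with
    | zero => rw [hS0]; exact Finset.empty_subset _
    | succ i ih => rw [hS1, hS1 (i + 1)]; exact mono _ _ ih
  have incl : ∀ i j, i ≤ j → S i ⊆ S j := by
    intro i j hij
    induction hij with
    | refl => exact Finset.Subset.refl _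
    | step _ ih => exact ih.trans (inc _)
  obtain ⟨N, hN⟩ : ∃ N, S (N + 1) = S N := by
    by_contra hcon
    push Not at hcon
    have h1 : ∀ i, i ≤ (S i).card := by
      intro i
      induction i with
      | zero => omega
      | succ i ih =>
        have h2 : S i ⊂ S (i + 1) := lt_of_le_of_ne (inc i) (Ne.symm (hcon i))
        have h3 := Finset.card_lt_card h2
        omega
    have h2 := h1 (Fintype.card V + 1)
    have h3 := Finset.card_le_univ (S (Fintype.card V + 1))
    omega
  have hfix : Φ (S N) = S N := by rw [← hS1]; exact hN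
  -- no edge between different components outside `S N`
  have key : ∀ w x, w ∉ S N → x ∉ S N → Γ.Adj w x → (del F (S N)).Reachable w x := by
    intro w x hw hx hwx
    by_contra hr
    obtain ⟨F₁, g₁, s₁, d₁⟩ : ∃ F', Gd Γ F' ∧ Same (S N) F' F ∧ (F'.neighborSet w).ncard ≠ 3 := by
      rw [← hfix, hΦ] at hw; push Not at hw; exact hw
    obtain ⟨F₂, g₂, s₂, d₂⟩ : ∃ F', Gd Γ F' ∧ Same (S N) F' F ∧ (F'.neighborSet x).ncard ≠ 3 := by
      rw [← hfix, hΦ] at hx; push Not at hx; exact hx
    obtain ⟨H, gH, sH, nw, nx⟩ := hybrid g₁ g₂ s₁ s₂ hx hr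
    have dw : (H.neighborSet w).ncard ≤ 2 := by rw [nw]; have := g₁.2 w; omega
    have dx : (H.neighborSet x).ncard ≤ 2 := by rw [nx]; have := g₂.2 x; omega
    by_cases hH : H.Reachable w x
    · -- the first level that separates
      have hex : ∃ i, ¬ (del H (S i)).Reachable w x := ⟨N, fun h => hr ((sH.2 w x).1 h)⟩
      set i := Nat.find hex with hi
      have h1 : ¬ (del H (S i)).Reachable w x := Nat.find_spec hex
      have hiN : i ≤ N := Nat.find_min' hex fun h => hr ((sH.2 w x).1 h)
      obtain ⟨i', hi'⟩ : ∃ i', i = i' + 1 := by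
        cases hii : i with
        | zero => rw [hii, hS0, del_empty] at h1; exact absurd hH h1
        | succ i' => exact ⟨i', rfl⟩
      have h2 : (del H (S i')).Reachable w x := by
        by_contra h
        have := Nat.find_min' hex h
        omega
      rw [hi'] at h1
      obtain ⟨K, s, hs, gK, sK, dK⟩ := exchange gH hwx (fun h => hw (incl _ _ (by omega) h))
        (fun h => hx (incl _ _ (by omega) h)) dw dx h2 h1 (inc i')
      rw [hS1, hΦ] at hs
      have sH' : Same (S i') H F := sH.mono (incl _ _ (by omega))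
      have e1 := hs H gH sH'
      have e2 := hs K gK (sK.trans sH')
      omega
    · let H' : SimpleGraph V := H ⊔ edge w x
      have hle : H ≤ H' := le_sup_left
      have hadj : H'.Adj w x := Or.inr (by rw [edge_adj]; exact ⟨Or.inl ⟨rfl, rfl⟩, hwx.ne⟩)
      have gH' : Gd Γ H' := by
        constructor
        · refine sup_le gH.1 ?_
          intro a b hab
          rw [edge_adj] at hab
          rcases hab.1 with ⟨rfl, rfl⟩ | ⟨rfl, rfl⟩
          · exact hwx
          · exact hwx.symm
        · intro v
          by_cases h1 : v = w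
          · subst h1
            have h2 : H'.neighborSet v ⊆ insert x (H.neighborSet v) := by
              rintro b (hb | hb)
              · exact Set.mem_insert_of_mem _ hb
              · rw [edge_adj] at hb
                rcases hb.1 with ⟨_, e⟩ | ⟨e, _⟩
                · rw [← e]; exact Set.mem_insert _ _
                · exact absurd e hwx.ne'.symm
            exact (Set.ncard_le_ncard h2 (Set.toFinite _)).trans ((Set.ncard_insert_le _ _).trans (by omega))
          by_cases h2 : v = x
          · subst h2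
            have h2 : H'.neighborSet v ⊆ insert w (H.neighborSet v) := by
              rintro b (hb | hb)
              · exact Set.mem_insert_of_mem _ hb
              · rw [edge_adj] at hb
                rcases hb.1 with ⟨e, _⟩ | ⟨_, e⟩
                · exact absurd e h1
                · rw [← e]; exact Set.mem_insert _ _
            exact (Set.ncard_le_ncard h2 (Set.toFinite _)).trans ((Set.ncard_insert_le _ _).trans (by omega))
          · have h3 : H'.neighborSet v ⊆ H.neighborSet v := by
              rintro b (hb | hb)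
              · exact hb
              · rw [edge_adj] at hb
                rcases hb.1 with ⟨e, _⟩ | ⟨e, _⟩
                · exact absurd e h1
                · exact absurd e h2
            exact (Set.ncard_le_ncard h3 (Set.toFinite _)).trans (gH.2 v)
      have h1 := card_lt hle hH (Adj.reachable hadj)
      have h2 := hm H' gH'
      rw [card_cc_of_same sH] at h1
      omega
  rcases (S N).eq_empty_or_nonempty with he | hne
  · apply hnp
    intro a b
    refine reach_of (fun a b hab => ?_) (hΓ.preconnected a b)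
    have := key a b (by rw [he]; exact Finset.notMem_empty _) (by rw [he]; exact Finset.notMem_empty _) hab
    rwa [he, del_empty] at this
  · have h1 := hT (S N) hne _ (del F (S N)).connectedComponentMk fun a b ha hb hab =>
      ConnectedComponent.sound (key a b ha hb hab)
    have h2 := hC V F (S N) hac hne (fun s hs => by
      rw [← hfix, hΦ] at hs
      exact hs F g (Same.refl _ _)) hnp
    omega

end Pool.Agent.Lib.MP_688fd0_co.NC
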